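import Mathlib

set_option autoImplicit false

namespace Pool.Agent.LibMaxTop

open Cardinal Set

universe u

/-- a countable divisible group containing elements of all orders -/
abbrev CC : Type := ℚ × AddCircle (1 : ℚ)

theorem exists_order (m : ℕ) : ∃ c : CC, addOrderOf c = m := by
  rcases Nat.eq_zero_or_pos m with h | h
  · subst h
    refine ⟨(1, 0), ?_⟩
    rw [addOrderOf_eq_zero_iff, isOfFinAddOrder_iff_nsmul_eq_zero]
    rintro ⟨n, hn, h⟩
    have h1 := congrArg Prod.fst h
    simp at h1
    omega
  · refine ⟨(0, ((1 / m : ℚ) : AddCircle (1 : ℚ))), ?_⟩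
    rw [Prod.addOrderOf]
    have : Fact ((0 : ℚ) < 1) := ⟨one_pos⟩
    simp only [addOrderOf_zero, Nat.lcm_one_left]
    exact AddCircle.addOrderOf_period_div h

noncomputable instance : DivisibleBy (AddCircle (1 : ℚ)) ℤ :=
  divisibleByOfSMulRightSurj _ _ (fun {n} hn a => by
    induction a using QuotientAddGroup.induction_on with
    | H z =>
      refine ⟨((z / n : ℚ) : AddCircle (1 : ℚ)), ?_⟩
      show n • ((z / n : ℚ) : AddCircle (1 : ℚ)) = (z : AddCircle (1 : ℚ))
      rw [← AddCircle.coe_zsmul]
      congr 1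
      rw [zsmul_eq_mul]
      field_simp)

instance : Countable (AddCircle (1 : ℚ)) :=
  Function.Surjective.countable (f := fun q : ℚ => (q : AddCircle (1 : ℚ)))
    QuotientAddGroup.mk_surjective

noncomputable instance divFinsupp (s : Type u) : DivisibleBy (s →₀ CC) ℤ :=
  divisibleByOfSMulRightSurj _ _ (fun {n} hn a => by
    refine ⟨Finsupp.mapRange (fun c => if c = 0 then 0 else DivisibleBy.div c n) (by simp) a, ?_⟩
    ext x
    · simp only [Finsupp.smul_apply, Finsupp.mapRange_apply]
      by_cases h : a x = 0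
      · simp [h]
      · rw [if_neg h, DivisibleBy.div_cancel _ hn]
    · simp only [Finsupp.smul_apply, Finsupp.mapRange_apply]
      by_cases h : a x = 0
      · simp [h]
      · rw [if_neg h, DivisibleBy.div_cancel _ hn])

variable {G : Type u} [AddCommGroup G]

/-- independent subsets -/
def Indep (s : Set G) : Prop :=
  (0 : G) ∉ s ∧ ∀ f : G →₀ ℤ, (f.support : Set G) ⊆ s → f.sum (fun x n => n • x) = 0 →
    ∀ x, f x • x = 0

theorem exists_maximal_indep (G : Type u) [AddCommGroup G] :
    ∃ s : Set G, Indep s ∧ ∀ g : G, g ≠ 0 → ∃ n : ℤ, n • g ≠ 0 ∧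
      ∃ f : G →₀ ℤ, (f.support : Set G) ⊆ s ∧ f.sum (fun x n => n • x) = n • g := by
  classical
  obtain ⟨s, hs⟩ := zorn_subset {s : Set G | Indep s} (by
    intro c hc hchain
    rcases c.eq_empty_or_nonempty with he | hne
    · subst he
      refine ⟨∅, ⟨by simp, ?_⟩, by simp⟩
      intro f hf _ x
      have : f = 0 := by
        rw [← Finsupp.support_eq_empty]
        have := Set.subset_empty_iff.1 hf
        exact_mod_cast this
      simp [this]
    · refine ⟨⋃₀ c, ⟨?_, ?_⟩, fun t ht => Set.subset_sUnion_of_mem ht⟩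
      · rintro ⟨t, ht, h0⟩
        exact (hc ht).1 h0
      · intro f hf hsum x
        obtain ⟨t, ht, hft⟩ := hchain.directedOn.exists_mem_subset_of_finite_of_subset_sUnion hne
          (Finset.finite_toSet f.support) hf
        exact (hc ht).2 f hft hsum x)
  refine ⟨s, hs.prop, fun g hg => ?_⟩
  by_cases hgs : g ∈ s
  · refine ⟨1, by simpa using hg, Finsupp.single g 1, ?_, by simp⟩
    intro x hx
    have : x = g := by
      have := Finsupp.support_single_subset hx
      simpa using this
    rw [this]
    exact hgs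
  · have h1 : ¬ Indep (insert g s) := by
      intro h
      exact hgs (hs.le_of_ge h (Set.subset_insert g s) (Set.mem_insert g s))
    unfold Indep at h1
    push Not at h1
    obtain ⟨f, hf, hsum, x, hx⟩ := h1 (by
      intro h
      rcases h with h | h
      · exact hg h.symm
      · exact hs.prop.1 h)
    have hf' : ((f.erase g).support : Set G) ⊆ s := by
      intro y hy
      rw [Finsupp.support_erase] at hy
      have hy' := Finset.mem_coe.1 hy
      rw [Finset.mem_erase] at hy'
      rcases hf hy'.2 with h | h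
      · exact absurd h hy'.1
      · exact h
    have hsum2 : f g • g + (f.erase g).sum (fun x n => n • x) = 0 := by
      rw [← hsum, ← Finsupp.add_sum_erase' f g _ (by simp)]
    refine ⟨- f g, ?_, f.erase g, hf', ?_⟩
    · intro h0
      rw [neg_smul, neg_eq_zero] at h0
      rw [h0, zero_add] at hsum2
      have h2 := hs.prop.2 _ hf' hsum2
      by_cases hxg : x = g
      · subst hxg
        exact hx h0
      · have h3 := h2 x
        rw [Finsupp.erase_ne hxg] at h3
        exact hx h3
    · rw [neg_smul]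
      exact (neg_eq_of_add_eq_zero_right hsum2).symm

theorem exists_embedding (G : Type u) [AddCommGroup G] (hG : ℵ₀ < #G) :
    ∃ (s : Set G) (h : G →+ (s →₀ CC)), #s = #G ∧ Function.Injective h ∧
      ∀ x : s, ∃ c : CC, c ≠ 0 ∧ h x = Finsupp.single x c := by
  classical
  obtain ⟨s, hs, hmax⟩ := exists_maximal_indep G
  have hc : ∀ x : s, ∃ c : CC, addOrderOf c = addOrderOf (x : G) := fun x => exists_order _
  choose c hc using hc
  let Ψ : (s →₀ ℤ) →+ G := Finsupp.liftAddHom (fun x => zmultiplesHom G (x : G))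
  let Φ : (s →₀ ℤ) →+ (s →₀ CC) :=
    Finsupp.liftAddHom (fun x => (Finsupp.singleAddHom x).comp (zmultiplesHom CC (c x)))
  have hΨ1 : ∀ (x : s) (n : ℤ), Ψ (Finsupp.single x n) = n • (x : G) := by
    intro x n
    simp [Ψ]
  have hΦ1 : ∀ (x : s) (n : ℤ), Φ (Finsupp.single x n) = Finsupp.single x (n • c x) := by
    intro x n
    simp only [Φ, Finsupp.liftAddHom_apply_single, AddMonoidHom.comp_apply,
      zmultiplesHom_apply, Finsupp.singleAddHom_apply]
  have hΨ : ∀ f : s →₀ ℤ, Ψ f = f.sum fun x n => n • (x : G) := by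
    intro f
    simp only [Ψ, Finsupp.liftAddHom_apply]
    rfl
  have hΦ : ∀ (f : s →₀ ℤ) (x : s), (Φ f) x = f x • c x := by
    intro f x
    induction f using Finsupp.induction_linear with
    | zero => simp
    | add f g hf hg => rw [map_add, Finsupp.add_apply, hf, hg, Finsupp.add_apply, add_smul]
    | single y n =>
      rw [hΦ1]
      by_cases hxy : y = x
      · subst hxy
        simp
      · rw [Finsupp.single_eq_of_ne (Ne.symm hxy), Finsupp.single_eq_of_ne (Ne.symm hxy), zero_smul]
  -- kernels
  have hemb : ∀ f : s →₀ ℤ, Ψ f = 0 → ∀ x, f x • (x : G) = 0 := by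
    intro f hf x
    have h1 := hs.2 (f.embDomain (Function.Embedding.subtype (· ∈ s))) (by
      intro y hy
      rw [Finsupp.support_embDomain] at hy
      simp only [Finset.coe_map, Function.Embedding.coe_subtype, Set.mem_image] at hy
      obtain ⟨z, _, rfl⟩ := hy
      exact z.2) (by
      rw [Finsupp.sum_embDomain]
      rw [hΨ] at hf
      exact hf) x
    have h2 : (f.embDomain (Function.Embedding.subtype (· ∈ s))) (x : G) = f x :=
      Finsupp.embDomain_apply_self (Function.Embedding.subtype (· ∈ s)) f x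
    rwa [h2] at h1
  have hker : ∀ f : s →₀ ℤ, Ψ f = 0 ↔ Φ f = 0 := by
    intro f
    have h2 : Φ f = 0 ↔ ∀ x, f x • (x : G) = 0 := by
      rw [DFunLike.ext_iff]
      refine forall_congr' fun x => ?_
      rw [hΦ, Finsupp.zero_apply, ← addOrderOf_dvd_iff_zsmul_eq_zero,
        ← addOrderOf_dvd_iff_zsmul_eq_zero, hc]
    rw [h2]
    constructor
    · exact hemb f
    · intro h
      rw [hΨ]
      exact Finset.sum_eq_zero fun x _ => h x
  have hle : Ψ.ker ≤ Φ.ker := by
    intro f hf
    rw [AddMonoidHom.mem_ker] at hf ⊢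
    exact (hker f).1 hf
  obtain ⟨h, hh⟩ := (Module.Baer.of_divisible (s →₀ CC)).extension_property_addMonoidHom
    (QuotientAddGroup.kerLift Ψ) (QuotientAddGroup.kerLift_injective Ψ)
    (QuotientAddGroup.lift Ψ.ker Φ hle)
  have hh' : ∀ f, h (Ψ f) = Φ f := by
    intro f
    have := DFunLike.congr_fun hh (QuotientAddGroup.mk f)
    simpa using this
  have hinj : Function.Injective h := by
    rw [injective_iff_map_eq_zero]
    intro g hg
    by_contra hg0
    obtain ⟨n, hn, f, hf, hfn⟩ := hmax g hg0
    let f' : s →₀ ℤ := f.subtypeDomain (· ∈ s)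
    have h1 : Ψ f' = n • g := by
      rw [hΨ, ← hfn]
      exact Finsupp.sum_subtypeDomain_index (h := fun x n => n • x) (fun x hx => hf hx)
    have h2 : Φ f' = 0 := by
      rw [← hh', h1, map_zsmul, hg, smul_zero]
    have h3 := (hker f').2 h2
    rw [h1] at h3
    exact hn h3
  have hsingle : ∀ x : s, h x = Finsupp.single x (c x) := by
    intro x
    have h1 := hh' (Finsupp.single x 1)
    rw [hΨ1, hΦ1, one_smul, one_smul] at h1
    exact h1
  refine ⟨s, h, ?_, hinj, fun x => ⟨c x, ?_, hsingle x⟩⟩
  · apply le_antisymm (Cardinal.mk_subtype_le s)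
    have h1 : #G ≤ #(s →₀ CC) := Cardinal.mk_le_of_injective hinj
    have h2 : ℵ₀ ≤ #s := by
      by_contra hcon
      rw [not_le] at hcon
      have : Finite s := Cardinal.lt_aleph0_iff_finite.1 hcon
      have h3 : Countable (s →₀ CC) := inferInstance
      have h4 : #(s →₀ CC) ≤ ℵ₀ := Cardinal.mk_le_aleph0_iff.2 h3
      exact absurd (h1.trans h4) (not_le.2 hG)
    have : Infinite s := Cardinal.infinite_iff.2 h2
    refine h1.trans ?_
    rw [Cardinal.mk_finsupp_lift_of_infinite]
    refine max_le ?_ ?_
    · exact le_of_eq (Cardinal.lift_uzero _)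
    · refine le_trans ?_ h2
      rw [Cardinal.lift_le_aleph0]
      exact Cardinal.mk_le_aleph0_iff.2 inferInstance
  · intro h0
    have h1 := hc x
    rw [h0, addOrderOf_zero] at h1
    have h2 : (x : G) = 0 := AddMonoid.addOrderOf_eq_one_iff.1 h1.symm
    exact hs.1 (h2 ▸ x.2)

end Pool.Agent.LibMaxTop
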