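import Mathlib

set_option autoImplicit false

namespace Pool.Agent.LibMaxTop

open Finset

universe u v

/-- A support function on an abelian group with values in finite subsets of a linear order. -/
structure SuppData (G : Type u) (I : Type v) [AddCommGroup G] [LinearOrder I] where
  supp : G → Finset I
  supp_eq_empty : ∀ x, supp x = ∅ ↔ x = 0
  supp_sub : ∀ x y, supp (x - y) ⊆ supp x ∪ supp y
  nuI : I → ℕ

namespace SuppData

variable {G : Type u} {I : Type v} [AddCommGroup G] [LinearOrder I] (S : SuppData G I)

theorem supp_zero : S.supp 0 = ∅ := (S.supp_eq_empty 0).2 rfl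

theorem supp_nonempty {x : G} (hx : x ≠ 0) : (S.supp x).Nonempty := by
  rw [Finset.nonempty_iff_ne_empty]
  intro h
  exact hx ((S.supp_eq_empty x).1 h)

theorem supp_neg_subset (x : G) : S.supp (-x) ⊆ S.supp x := by
  have := S.supp_sub 0 x
  rw [zero_sub, S.supp_zero, Finset.empty_union] at this
  exact this

theorem supp_neg (x : G) : S.supp (-x) = S.supp x := by
  apply Finset.Subset.antisymm (S.supp_neg_subset x)
  have := S.supp_neg_subset (-x)
  rwa [neg_neg] at this

theorem supp_add (x y : G) : S.supp (x + y) ⊆ S.supp x ∪ S.supp y := by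
  have := S.supp_sub x (-y)
  rwa [sub_neg_eq_add, S.supp_neg] at this

theorem supp_sub_comm (x y : G) : S.supp (x - y) = S.supp (y - x) := by
  rw [← neg_sub, S.supp_neg]

/-- all coordinates of `x` come before all coordinates of `y` -/
def Low (x y : G) : Prop := ∀ i ∈ S.supp x, ∀ j ∈ S.supp y, i < j

theorem low_zero_left (y : G) : S.Low 0 y := by
  intro i hi
  rw [S.supp_zero] at hi
  simp at hi

theorem low_zero_right (x : G) : S.Low x 0 := by
  intro i _ j hj
  rw [S.supp_zero] at hj
  simp at hj

variable {S}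

theorem Low.disjoint {x y : G} (h : S.Low x y) : Disjoint (S.supp x) (S.supp y) := by
  rw [Finset.disjoint_left]
  intro i hi hj
  exact lt_irrefl _ (h i hi i hj)

theorem supp_add_of_disjoint {x y : G} (h : Disjoint (S.supp x) (S.supp y)) :
    S.supp (x + y) = S.supp x ∪ S.supp y := by
  apply Finset.Subset.antisymm (S.supp_add x y)
  intro i hi
  rw [Finset.mem_union] at hi
  rcases hi with hi | hi
  · have h1 : x = (x + y) - y := by abel
    have h2 := S.supp_sub (x + y) y
    rw [← h1] at h2
    have h3 := h2 hi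
    rw [Finset.mem_union] at h3
    rcases h3 with h3 | h3
    · exact h3
    · exact absurd h3 (Finset.disjoint_left.1 h hi)
  · have h1 : y = (x + y) - x := by abel
    have h2 := S.supp_sub (x + y) x
    rw [← h1] at h2
    have h3 := h2 hi
    rw [Finset.mem_union] at h3
    rcases h3 with h3 | h3
    · exact h3
    · exact absurd hi (Finset.disjoint_left.1 h h3)

theorem Low.supp_add {x y : G} (h : S.Low x y) : S.supp (x + y) = S.supp x ∪ S.supp y :=
  supp_add_of_disjoint h.disjoint

variable (S)

/-- `x` is an initial part of `z` -/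
def Init (x z : G) : Prop := S.Low x (z - x)

variable {S}

theorem Low.init {x y : G} (h : S.Low x y) : S.Init x (x + y) := by
  unfold Init
  rwa [add_sub_cancel_left]

theorem init_zero (z : G) : S.Init 0 z := by
  unfold Init
  exact S.low_zero_left _

theorem init_refl (z : G) : S.Init z z := by
  unfold Init
  rw [sub_self]
  exact S.low_zero_right _

theorem Init.supp_eq {x z : G} (h : S.Init x z) : S.supp z = S.supp x ∪ S.supp (z - x) := by
  have := Low.supp_add h
  rwa [add_sub_cancel] at this

theorem Init.supp_subset {x z : G} (h : S.Init x z) : S.supp x ⊆ S.supp z := by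
  rw [h.supp_eq]
  exact Finset.subset_union_left

theorem Init.supp_sub_subset {x z : G} (h : S.Init x z) : S.supp (z - x) ⊆ S.supp z := by
  rw [h.supp_eq]
  exact Finset.subset_union_right

theorem Init.card_eq {x z : G} (h : S.Init x z) :
    (S.supp z).card = (S.supp x).card + (S.supp (z - x)).card := by
  rw [h.supp_eq]
  exact Finset.card_union_of_disjoint (Low.disjoint h)

theorem Init.sub_eq {x z : G} (h : S.Init x z) {i : I} (hi : i ∈ S.supp z) :
    i ∈ S.supp (z - x) ↔ i ∉ S.supp x := by
  constructor
  · intro h1 h2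
    exact (Finset.disjoint_left.1 (Low.disjoint h) h2) h1
  · intro h1
    rw [h.supp_eq, Finset.mem_union] at hi
    rcases hi with hi | hi
    · exact absurd hi h1
    · exact hi

theorem eq_of_supp_sub_empty {x y : G} (h : S.supp (x - y) = ∅) : x = y := by
  have := (S.supp_eq_empty _).1 h
  exact sub_eq_zero.1 this

/-- comparison of initial parts -/
theorem Init.of_supp_subset {x x' z : G} (h : S.Init x z) (h' : S.Init x' z)
    (hs : S.supp x ⊆ S.supp x') : S.Init x x' := by
  intro i hi j hj
  have h1 : x' - x = (z - x) - (z - x') := by abel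
  have hj1 : j ∈ S.supp x' := by
    have := S.supp_sub x' x hj
    rw [Finset.mem_union] at this
    rcases this with h2 | h2
    · exact h2
    · exact hs h2
  have hj2 : j ∈ S.supp (z - x) := by
    have h3 := hj
    rw [h1] at h3
    have := S.supp_sub (z - x) (z - x') h3
    rw [Finset.mem_union] at this
    rcases this with h2 | h2
    · exact h2
    · exact absurd hj1 (fun h4 => (Finset.disjoint_left.1 (Low.disjoint h') h4) h2)
  exact h i hi j hj2

theorem Init.supp_total {x x' z : G} (h : S.Init x z) (h' : S.Init x' z) :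
    S.supp x ⊆ S.supp x' ∨ S.supp x' ⊆ S.supp x := by
  by_contra hcon
  push Not at hcon
  obtain ⟨h1, h2⟩ := hcon
  rw [Finset.not_subset] at h1 h2
  obtain ⟨i, hi, hi'⟩ := h1
  obtain ⟨j, hj, hj'⟩ := h2
  have hiz : i ∈ S.supp (z - x') := (h'.sub_eq (h.supp_subset hi)).2 hi'
  have hjz : j ∈ S.supp (z - x) := (h.sub_eq (h'.supp_subset hj)).2 hj'
  exact lt_asymm (h i hi j hjz) (h' j hj i hiz)

theorem Init.total {x x' z : G} (h : S.Init x z) (h' : S.Init x' z) :
    S.Init x x' ∨ S.Init x' x := by
  rcases h.supp_total h' with hs | hs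
  · exact Or.inl (h.of_supp_subset h' hs)
  · exact Or.inr (h'.of_supp_subset h hs)

theorem Init.eq_of_card {x x' : G} (h : S.Init x x')
    (hc : (S.supp x').card ≤ (S.supp x).card) : x = x' := by
  have h1 := h.card_eq
  have h2 : (S.supp (x' - x)).card = 0 := by omega
  rw [Finset.card_eq_zero] at h2
  exact (eq_of_supp_sub_empty h2).symm

theorem Init.card_lt {x x' : G} (h : S.Init x x') (hne : x ≠ x') :
    (S.supp x).card < (S.supp x').card := by
  by_contra hcon
  exact hne (h.eq_of_card (not_lt.1 hcon))

theorem Init.card_le {x x' : G} (h : S.Init x x') :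
    (S.supp x).card ≤ (S.supp x').card := by
  have := h.card_eq
  omega

theorem Init.trans {x y z : G} (h : S.Init x y) (h' : S.Init y z) : S.Init x z := by
  intro i hi j hj
  have h1 : z - x = (z - y) - (x - y) := by abel
  rw [h1] at hj
  have := S.supp_sub (z - y) (x - y) hj
  rw [Finset.mem_union] at this
  rcases this with h2 | h2
  · exact h' i (h.supp_subset hi) j h2
  · rw [S.supp_sub_comm] at h2
    exact h i hi j h2

theorem Init.sub {x y z : G} (h : S.Init x y) (h' : S.Init y z) : S.Init (y - x) (z - x) := by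
  intro i hi j hj
  have h1 : z - x - (y - x) = z - y := by abel
  rw [h1] at hj
  exact h' i (h.supp_sub_subset hi) j hj

theorem Init.add_left {x y : G} {z : G} (h : S.Low x z) (h' : S.Init y z) :
    S.Init (x + y) (x + z) := by
  intro i hi j hj
  have h1 : x + z - (x + y) = z - y := by abel
  rw [h1] at hj
  have h2 := S.supp_add x y hi
  rw [Finset.mem_union] at h2
  rcases h2 with h2 | h2
  · exact h i h2 j (h'.supp_sub_subset hj)
  · exact h' i h2 j hj

theorem init_finite (z : G) : {x | S.Init x z}.Finite := by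
  refine Set.Finite.of_finite_image (f := S.supp) ?_ ?_
  · refine Set.Finite.subset (Finset.finite_toSet (S.supp z).powerset) ?_
    rintro _ ⟨x, hx, rfl⟩
    simp only [Finset.coe_powerset, Set.mem_preimage, Set.mem_powerset_iff, Finset.coe_subset]
    exact Init.supp_subset hx
  · intro x hx y hy hxy
    have h1 : S.Init x y := Init.of_supp_subset hx hy (by rw [hxy])
    exact h1.eq_of_card (by rw [hxy])

/-- parts after a common cut -/
theorem Init.of_low {x y z : G} (hz : S.Init z (x + y)) (hxy : S.Low x y) :
    S.Init z x ∨ (S.Init x z ∧ S.Init (z - x) y) := by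
  have hx : S.Init x (x + y) := hxy.init
  rcases hz.total hx with h | h
  · exact Or.inl h
  · right
    refine ⟨h, ?_⟩
    have := Init.sub h hz
    rwa [add_sub_cancel_left] at this

variable (S)

/-- the value of `nuI` at the first coordinate -/
noncomputable def nu (x : G) : ℕ :=
  if h : (S.supp x).Nonempty then S.nuI ((S.supp x).min' h) else 0

variable {S}

theorem nu_eq {x : G} (h : (S.supp x).Nonempty) : S.nu x = S.nuI ((S.supp x).min' h) := by
  unfold nu
  rw [dif_pos h]

theorem exists_mem_nu {x : G} (hx : x ≠ 0) : ∃ i ∈ S.supp x, S.nu x = S.nuI i := by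
  have h := S.supp_nonempty hx
  exact ⟨_, Finset.min'_mem _ h, nu_eq h⟩

theorem Low.min_eq {x y : G} (h : S.Low x y) (hx : (S.supp x).Nonempty)
    (hxy : (S.supp (x + y)).Nonempty) :
    (S.supp (x + y)).min' hxy = (S.supp x).min' hx := by
  apply le_antisymm
  · apply Finset.min'_le
    rw [h.supp_add, Finset.mem_union]
    exact Or.inl (Finset.min'_mem _ _)
  · apply Finset.le_min'
    intro j hj
    rw [h.supp_add, Finset.mem_union] at hj
    rcases hj with hj | hj
    · exact Finset.min'_le _ _ hj
    · exact (h _ (Finset.min'_mem _ hx) j hj).le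

theorem Low.add_ne_zero {x y : G} (h : S.Low x y) (hx : x ≠ 0) : x + y ≠ 0 := by
  intro h0
  have h1 := h.supp_add
  rw [h0, S.supp_zero] at h1
  have h2 := S.supp_nonempty hx
  have h3 : S.supp x ⊆ ∅ := by
    rw [h1]
    exact Finset.subset_union_left
  rw [Finset.subset_empty] at h3
  rw [h3] at h2
  simp at h2

theorem Low.nu_add {x y : G} (h : S.Low x y) (hx : x ≠ 0) : S.nu (x + y) = S.nu x := by
  have h1 := S.supp_nonempty hx
  have h2 := S.supp_nonempty (h.add_ne_zero hx)
  rw [nu_eq h1, nu_eq h2, h.min_eq h1 h2]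

theorem Init.nu_eq {x z : G} (h : S.Init x z) (hx : x ≠ 0) : S.nu z = S.nu x := by
  have := Low.nu_add h hx
  rwa [add_sub_cancel] at this

variable (S)

/-- `y` is far from the finite set `F` -/
def Far (F : Finset I) (y : G) : Prop :=
  y ≠ 0 ∧ (∀ i ∈ F, ∀ j ∈ S.supp y, i < j) ∧ ∀ i ∈ F, S.nuI i < S.nu y

variable {S}

theorem Far.low {x y : G} (h : S.Far (S.supp x) y) : S.Low x y := h.2.1

theorem Far.nu_lt {x y : G} (h : S.Far (S.supp x) y) (hx : x ≠ 0) : S.nu x < S.nu y := by
  obtain ⟨i, hi, h1⟩ := exists_mem_nu (S := S) hx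
  rw [h1]
  exact h.2.2 i hi

theorem Far.mono {F F' : Finset I} (hF : F ⊆ F') {y : G} (h : S.Far F' y) : S.Far F y :=
  ⟨h.1, fun i hi => h.2.1 i (hF hi), fun i hi => h.2.2 i (hF hi)⟩

end SuppData

end Pool.Agent.LibMaxTop
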