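import Mathlib
import Pool.Agent.LibMaxTop.Support

set_option autoImplicit false

namespace Pool.Agent.LibMaxTop

open Filter Set Topology

universe u v

attribute [local instance] Ultrafilter.add Ultrafilter.addSemigroup

section basic

variable {G : Type u} [AddCommGroup G]

theorem mem_uadd {r s : Ultrafilter G} {B : Set G} :
    B ∈ r + s ↔ ∀ᶠ x in (r : Filter G), ∀ᶠ y in (s : Filter G), x + y ∈ B := Iff.rfl

theorem continuous_uadd (s : Ultrafilter G) : Continuous (fun r : Ultrafilter G => r + s) :=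
  Ultrafilter.continuous_add_left s

theorem isClosed_mem (B : Set G) : IsClosed {r : Ultrafilter G | B ∈ r} :=
  ultrafilter_isClosed_basic B

theorem isClosed_absorb (s t : Ultrafilter G) : IsClosed {r : Ultrafilter G | r + s = t} :=
  isClosed_singleton.preimage (continuous_uadd s)

/-- sets reached by successive additions, with parity -/
inductive Reach (A : G → Set G) : Bool → G → Prop
  | zero : Reach A false 0
  | step {b : Bool} {x y : G} : Reach A b x → y ∈ A x → Reach A (!b) (x + y)

def ReachS (A : G → Set G) : Set G := {z | ∃ b, Reach A b z}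

theorem Reach.mono {A B : G → Set G} (h : ∀ x, A x ⊆ B x) {b : Bool} {z : G}
    (hz : Reach A b z) : Reach B b z := by
  induction hz with
  | zero => exact Reach.zero
  | step _ hy ih => exact Reach.step ih (h _ hy)

theorem ReachS.mono {A B : G → Set G} (h : ∀ x, A x ⊆ B x) : ReachS A ⊆ ReachS B := by
  rintro z ⟨b, hz⟩
  exact ⟨b, hz.mono h⟩

theorem ReachS.zero (A : G → Set G) : (0 : G) ∈ ReachS A := ⟨false, Reach.zero⟩

theorem ReachS.step {A : G → Set G} {x y : G} (hx : x ∈ ReachS A) (hy : y ∈ A x) :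
    x + y ∈ ReachS A := by
  obtain ⟨b, hb⟩ := hx
  exact ⟨!b, hb.step hy⟩

theorem ReachS.shift {A : G → Set G} {x : G} (hx : x ∈ ReachS A) {y : G}
    (hy : y ∈ ReachS (fun w => A (x + w))) : x + y ∈ ReachS A := by
  obtain ⟨b, hb⟩ := hy
  induction hb with
  | zero => rwa [add_zero]
  | step _ hy ih =>
    rw [← add_assoc]
    exact ReachS.step ih hy

theorem reachS_sub_of {A : G → Set G} {s : Ultrafilter G} (hA : ∀ x, A x ∈ s) :
    ReachS A ∈ s := by
  refine mem_of_superset (hA 0) fun y hy => ?_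
  have := ReachS.step (ReachS.zero A) hy
  rwa [zero_add] at this

theorem reachS_add_mem {s : Ultrafilter G} {r r' : Ultrafilter G}
    (hr : ∀ A : G → Set G, (∀ x, A x ∈ s) → ReachS A ∈ r)
    (hr' : ∀ A : G → Set G, (∀ x, A x ∈ s) → ReachS A ∈ r')
    {A : G → Set G} (hA : ∀ x, A x ∈ s) : ReachS A ∈ r + r' := by
  rw [mem_uadd]
  filter_upwards [hr A hA] with x hx
  filter_upwards [hr' (fun w => A (x + w)) (fun w => hA _)] with y hy
  exact ReachS.shift hx hy

end basic

section sys

variable {G : Type u} {I : Type v} [AddCommGroup G] [LinearOrder I]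

/-- a closed semigroup of ultrafilters with absorbing property -/
structure Sys (S : SuppData G I) where
  L : Set (Ultrafilter G)
  closed : IsClosed L
  nonempty : L.Nonempty
  add_mem : ∀ r ∈ L, ∀ s ∈ L, r + s ∈ L
  absorb : ∀ r s, s ∈ L → r + s = s → ({0}ᶜ : Set G) ∈ r → r ∈ L
  far : ∀ r ∈ L, ∀ F : Finset I, {y | S.Far F y} ∈ r

variable {S : SuppData G I} (T : Sys S)

theorem Sys.compl_zero {r : Ultrafilter G} (hr : r ∈ T.L) : ({0}ᶜ : Set G) ∈ r :=
  mem_of_superset (T.far r hr ∅) fun _ hy => hy.1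

theorem Sys.exists_right_max : ∃ p ∈ T.L, p + p = p ∧
    ∀ p' ∈ T.L, p' + p' = p' → p' + p = p → p + p' = p' := by
  let Z : Set (Set (Ultrafilter G)) := {C | ∃ p ∈ T.L, p + p = p ∧ C = {s | s ∈ T.L ∧ s + p = p}}
  have hclosed : ∀ p : Ultrafilter G, IsClosed {s | s ∈ T.L ∧ s + p = p} := fun p =>
    T.closed.inter (isClosed_absorb p p)
  have hsub : ∀ p : Ultrafilter G, ∀ s ∈ {s | s ∈ T.L ∧ s + p = p}, ∀ t ∈ {s | s ∈ T.L ∧ s + p = p},
      s + t ∈ {s | s ∈ T.L ∧ s + p = p} := by
    rintro p s ⟨hs, hs'⟩ t ⟨ht, ht'⟩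
    exact ⟨T.add_mem s hs t ht, by rw [add_assoc, ht', hs']⟩
  obtain ⟨p0, hp0, hp0'⟩ := exists_idempotent_in_compact_add_subsemigroup
    (continuous_uadd (G := G)) T.L T.nonempty T.closed.isCompact (fun x hx y hy => T.add_mem x hx y hy)
  have hz : ∃ C, Minimal (· ∈ Z) C := by
    suffices H : ∀ c ⊆ Z, IsChain (· ⊆ ·) c → c.Nonempty → ∃ lb ∈ Z, ∀ s ∈ c, lb ⊆ s by
      obtain ⟨m, _, hm⟩ := zorn_superset_nonempty Z H {s | s ∈ T.L ∧ s + p0 = p0}
        ⟨p0, hp0, hp0', rfl⟩
      exact ⟨m, hm⟩
    · intro c hc hchain hcne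
      have hne : (⋂₀ c).Nonempty := by
        have := @IsCompact.nonempty_iInter_of_directed_nonempty_isCompact_isClosed _ _ _
          hcne.coe_sort ((↑) : c → Set (Ultrafilter G)) ?_ ?_ ?_ ?_
        · rwa [Set.sInter_eq_iInter]
        · exact DirectedOn.directed_val (IsChain.directedOn hchain.symm)
        · intro i
          obtain ⟨p, hp, hpp, hi⟩ := hc i.2
          rw [hi]
          exact ⟨p, hp, hpp⟩
        · intro i
          obtain ⟨p, hp, hpp, hi⟩ := hc i.2
          rw [hi]
          exact (hclosed p).isCompact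
        · intro i
          obtain ⟨p, hp, hpp, hi⟩ := hc i.2
          rw [hi]
          exact hclosed p
      have hcl : IsClosed (⋂₀ c) := by
        refine isClosed_sInter fun t ht => ?_
        obtain ⟨p, hp, hpp, hi⟩ := hc ht
        rw [hi]
        exact hclosed p
      obtain ⟨q, hq, hqq⟩ := exists_idempotent_in_compact_add_subsemigroup
        (continuous_uadd (G := G)) (⋂₀ c) hne hcl.isCompact (by
          intro x hx y hy
          rw [Set.mem_sInter] at hx hy ⊢
          intro t ht
          obtain ⟨p, hp, hpp, hi⟩ := hc ht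
          have h1 := hx t ht
          have h2 := hy t ht
          rw [hi] at h1 h2 ⊢
          exact hsub p x h1 y h2)
      have hqL : q ∈ T.L := by
        obtain ⟨t, ht⟩ := hcne
        obtain ⟨p, hp, hpp, hi⟩ := hc ht
        have := Set.mem_sInter.1 hq t ht
        rw [hi] at this
        exact this.1
      refine ⟨{s | s ∈ T.L ∧ s + q = q}, ⟨q, hqL, hqq, rfl⟩, ?_⟩
      intro t ht
      obtain ⟨p, hp, hpp, hi⟩ := hc ht
      have hqp := Set.mem_sInter.1 hq t ht
      rw [hi] at hqp ⊢
      rintro s ⟨hs, hs'⟩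
      refine ⟨hs, ?_⟩
      calc s + p = s + (q + p) := by rw [hqp.2]
        _ = (s + q) + p := by rw [add_assoc]
        _ = p := by rw [hs', hqp.2]
  obtain ⟨C, ⟨p, hp, hpp, rfl⟩, hmin⟩ := hz
  refine ⟨p, hp, hpp, ?_⟩
  intro p' hp' hpp' h
  have h1 : {s | s ∈ T.L ∧ s + p' = p'} ⊆ {s | s ∈ T.L ∧ s + p = p} := by
    rintro s ⟨hs, hs'⟩
    refine ⟨hs, ?_⟩
    calc s + p = s + (p' + p) := by rw [h]
      _ = (s + p') + p := by rw [add_assoc]
      _ = p := by rw [hs', h]
  have h2 := hmin ⟨p', hp', hpp', rfl⟩ h1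
  exact (h2 ⟨hp, hpp⟩ : p ∈ T.L ∧ p + p' = p').2

/-- the semigroup attached to an idempotent -/
def Cset (p : Ultrafilter G) : Set (Ultrafilter G) := {s | ({0}ᶜ : Set G) ∈ s ∧ s + p = p}

theorem isClosed_Cset (p : Ultrafilter G) : IsClosed (Cset p) :=
  (isClosed_mem _).inter (isClosed_absorb p p)

variable {T}

theorem Sys.Cset_subset {p : Ultrafilter G} (hp : p ∈ T.L) {s : Ultrafilter G}
    (hs : s ∈ Cset p) : s ∈ T.L := T.absorb s p hp hs.2 hs.1

theorem Sys.Cset_add {p : Ultrafilter G} (hp : p ∈ T.L) {s t : Ultrafilter G}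
    (hs : s ∈ Cset p) (ht : t ∈ Cset p) : s + t ∈ Cset p := by
  refine ⟨T.compl_zero (T.add_mem s (T.Cset_subset hp hs) t (T.Cset_subset hp ht)), ?_⟩
  rw [add_assoc, ht.2, hs.2]

theorem Sys.right_zero {p : Ultrafilter G} (hp : p ∈ T.L)
    (hmax : ∀ p' ∈ T.L, p' + p' = p' → p' + p = p → p + p' = p')
    {s t : Ultrafilter G} (hs : s ∈ Cset p) (ht : t ∈ Cset p) (htt : t + t = t) :
    s + t = t := by
  have h1 := hmax t (T.Cset_subset hp ht) htt ht.2
  calc s + t = s + (p + t) := by rw [h1]
    _ = (s + p) + t := by rw [add_assoc]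
    _ = t := by rw [hs.2, h1]

theorem exists_sep {s : Ultrafilter G} (h : ¬ ∃ u : Ultrafilter G, ({0}ᶜ : Set G) ∈ u ∧ u + s = s) :
    ∃ A ∈ s, ∀ x : G, x ≠ 0 → ∀ᶠ y in (s : Filter G), x + y ∉ A := by
  let K : Set (Ultrafilter G) := (fun u => u + s) '' {u | ({0}ᶜ : Set G) ∈ u}
  have hK : IsClosed K := ((isClosed_mem _).isCompact.image (continuous_uadd s)).isClosed
  have hs : s ∈ Kᶜ := by
    rintro ⟨u, hu, hus⟩
    exact h ⟨u, hu, hus⟩
  obtain ⟨_, ⟨A, rfl⟩, hA, hAK⟩ := ultrafilterBasis_is_basis.exists_subset_of_mem_open hs hK.isOpen_compl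
  refine ⟨A, hA, fun x hx => ?_⟩
  by_contra hcon
  rw [Ultrafilter.eventually_not, not_not] at hcon
  have h1 : (pure x + s : Ultrafilter G) ∈ K := by
    refine ⟨pure x, ?_, rfl⟩
    change ({0}ᶜ : Set G) ∈ (pure x : Ultrafilter G)
    rw [Ultrafilter.mem_pure]
    exact hx
  have h2 : (pure x + s : Ultrafilter G) ∈ {u : Ultrafilter G | A ∈ u} := by
    change A ∈ (pure x + s : Ultrafilter G)
    rw [mem_uadd]
    change ∀ᶠ z in (pure x : Filter G), ∀ᶠ y in (s : Filter G), z + y ∈ A
    rw [eventually_pure]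
    exact hcon
  exact hAK h2 h1

theorem Sys.all_idem {p : Ultrafilter G} (hp : p ∈ T.L) (hpp : p + p = p)
    (hmax : ∀ p' ∈ T.L, p' + p' = p' → p' + p = p → p + p' = p')
    {s : Ultrafilter G} (hs : s ∈ Cset p) : s + s = s := by
  by_cases h : ∃ u : Ultrafilter G, ({0}ᶜ : Set G) ∈ u ∧ u + s = s
  · -- some absorbing element
    have hD : ∀ u : Ultrafilter G, ({0}ᶜ : Set G) ∈ u → u + s = s → u ∈ Cset p := by
      intro u hu hus
      refine ⟨hu, ?_⟩
      calc u + p = u + (s + p) := by rw [hs.2]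
        _ = (u + s) + p := by rw [add_assoc]
        _ = p := by rw [hus, hs.2]
    obtain ⟨u, hu, hus⟩ := h
    obtain ⟨p1, hp1, hp11⟩ := exists_idempotent_in_compact_add_subsemigroup
      (continuous_uadd (G := G)) {u | u ∈ Cset p ∧ u + s = s} ⟨u, hD u hu hus, hus⟩
      ((isClosed_Cset p).inter (isClosed_absorb s s)).isCompact (by
        rintro x ⟨hx, hx'⟩ y ⟨hy, hy'⟩
        exact ⟨T.Cset_add hp hx hy, by rw [add_assoc, hy', hx']⟩)
    have h1 : s + p1 = p1 := T.right_zero hp hmax hs hp1.1 hp11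
    calc s + s = s + (p1 + s) := by rw [hp1.2]
      _ = (s + p1) + s := by rw [add_assoc]
      _ = s := by rw [h1, hp1.2]
  · exfalso
    have hsL := T.Cset_subset hp hs
    obtain ⟨A, hA, hAx⟩ := exists_sep h
    let B : G → Set G := fun x =>
      {y | y ∈ A ∧ S.Far (S.supp x) y ∧ ∀ x' ∈ {x' | S.Init x' x}, x' ≠ x → (x - x') + y ∉ A}
    have hB : ∀ x, B x ∈ s := by
      intro x
      have h1 : ∀ᶠ y in (s : Filter G), ∀ x' ∈ {x' | S.Init x' x}, x' ≠ x → (x - x') + y ∉ A := by
        rw [eventually_all_finite (SuppData.init_finite x)]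
        intro x' _
        by_cases hx' : x' = x
        · exact Eventually.of_forall fun y hne => absurd hx' hne
        · have := hAx (x - x') (sub_ne_zero.2 (Ne.symm hx'))
          filter_upwards [this] with y hy _
          exact hy
      filter_upwards [hA, T.far s hsL (S.supp x), h1] with y h2 h3 h4
      exact ⟨h2, h3, h4⟩
    have hdis' : ∀ x x' y y' : G, y ∈ B x → y' ∈ B x' → x + y = x' + y' → S.Init x' x → x' = x := by
      intro x x' y y' hy hy' hxy hi
      by_contra hne
      have h1 := hy.2.2 x' hi hne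
      apply h1
      have h2 : x - x' + y = y' := by
        rw [sub_add_eq_add_sub, hxy]
        abel
      rw [h2]
      exact hy'.1
    have hdis : ∀ x x' y y' : G, y ∈ B x → y' ∈ B x' → x + y = x' + y' → x = x' := by
      intro x x' y y' hy hy' hxy
      have hi : S.Init x (x + y) := SuppData.Low.init hy.2.1.low
      have hi' : S.Init x' (x + y) := by
        rw [hxy]
        exact SuppData.Low.init hy'.2.1.low
      rcases hi.total hi' with h1 | h1
      · exact hdis' x' x y' y hy' hy hxy.symm h1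
      · exact (hdis' x x' y y' hy hy' hxy h1).symm
    -- uniqueness of the parity
    have huniq : ∀ (b : Bool) (z : G), Reach B b z → ∀ c, Reach B c z → b = c := by
      intro b z hz
      induction hz with
      | zero =>
        intro c hc
        generalize h0 : (0 : G) = z at hc
        cases hc with
        | zero => rfl
        | step hx hy =>
          rename_i b x y
          exfalso
          have hyne : y ≠ 0 := hy.2.1.1
          by_cases hx0 : x = 0
          · rw [hx0, zero_add] at h0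
            exact hyne h0.symm
          · exact SuppData.Low.add_ne_zero hy.2.1.low hx0 h0.symm
      | step hx hy ih =>
        rename_i b x y
        intro c hc
        generalize h0 : x + y = z at hc
        cases hc with
        | zero =>
          exfalso
          have hyne : y ≠ 0 := hy.2.1.1
          by_cases hx0 : x = 0
          · rw [hx0, zero_add] at h0
            exact hyne h0
          · exact SuppData.Low.add_ne_zero hy.2.1.low hx0 h0
        | step hx' hy' =>
          rename_i b' x' y'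
          have hxx : x = x' := hdis x x' y y' hy hy' h0
          subst hxx
          rw [ih b' hx']
    let Γ : Set (Ultrafilter G) := {r | r ∈ Cset p ∧ ∀ A : G → Set G, (∀ x, A x ∈ s) → ReachS A ∈ r}
    have hΓc : IsClosed Γ := by
      have : Γ = Cset p ∩ ⋂ (A : G → Set G) (_ : ∀ x, A x ∈ s), {r : Ultrafilter G | ReachS A ∈ r} := by
        ext r
        simp only [Γ, Set.mem_ofPred_eq, Set.mem_inter_iff, Set.mem_iInter]
      rw [this]
      refine (isClosed_Cset p).inter ?_
      exact isClosed_iInter fun A => isClosed_iInter fun _ => isClosed_mem _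
    obtain ⟨r, hr, hrr⟩ := exists_idempotent_in_compact_add_subsemigroup
      (continuous_uadd (G := G)) Γ ⟨s, hs, fun A hA => reachS_sub_of hA⟩ hΓc.isCompact (by
        rintro x ⟨hx, hx'⟩ y ⟨hy, hy'⟩
        exact ⟨T.Cset_add hp hx hy, fun A hA => reachS_add_mem hx' hy' hA⟩)
    have hsr : s + r = r := T.right_zero hp hmax hs hr.1 hrr
    have hpar : ∀ᶠ x in (s : Filter G), ∀ᶠ y in (r : Filter G),
        ∃ c, Reach B c y ∧ Reach B (!c) (x + y) := by
      filter_upwards [hB 0] with x hx
      filter_upwards [hr.2 (fun w => B w ∩ B (x + w)) (fun w => inter_mem (hB _) (hB _))] with y hy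
      obtain ⟨b, hb⟩ := hy
      refine ⟨b, ?_⟩
      induction hb with
      | zero =>
        refine ⟨Reach.zero, ?_⟩
        have := Reach.step (Reach.zero (A := B)) hx
        rw [zero_add] at this
        rw [add_zero]
        exact this
      | step _ hy ih =>
        refine ⟨ih.1.step hy.1, ?_⟩
        rw [← add_assoc]
        exact ih.2.step hy.2
    by_cases hM : {z | Reach B true z} ∈ r
    · have h1 : {z | Reach B true z} ∈ s + r := by rw [hsr]; exact hM
      rw [mem_uadd] at h1
      obtain ⟨x, hx1, hx2⟩ := (h1.and hpar).exists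
      obtain ⟨y, ⟨hy1, c, hy2, hy3⟩, hy4⟩ := ((hx1.and hx2).and hM).exists
      have e1 := huniq _ _ hy4 _ hy2
      have e2 := huniq _ _ hy1 _ hy3
      rw [← e1] at e2
      simp at e2
    · have hM' : {z | Reach B true z}ᶜ ∈ r := Ultrafilter.compl_mem_iff_notMem.2 hM
      have h1 : {z | Reach B true z}ᶜ ∈ s + r := by rw [hsr]; exact hM'
      rw [mem_uadd] at h1
      obtain ⟨x, hx1, hx2⟩ := (h1.and hpar).exists
      obtain ⟨y, ⟨hy1, c, hy2, hy3⟩, hy4⟩ := ((hx1.and hx2).and hM').exists
      cases c with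
      | true => exact hy4 hy2
      | false => exact hy1 hy3

theorem Sys.finite_Cset {p : Ultrafilter G} (hp : p ∈ T.L) (hpp : p + p = p)
    (hmax : ∀ p' ∈ T.L, p' + p' = p' → p' + p = p → p + p' = p') : (Cset p).Finite := by
  by_contra hinf
  have hinf' : (Cset p).Infinite := hinf
  have hidem : ∀ s ∈ Cset p, s + s = s := fun s hs => T.all_idem hp hpp hmax hs
  let f := hinf'.natEmbedding
  have hfC : Set.range (fun n => (f n : Ultrafilter G)) ⊆ Cset p := by
    rintro _ ⟨n, rfl⟩
    exact (f n).2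
  have hfinj : Function.Injective (fun n => (f n : Ultrafilter G)) :=
    Subtype.val_injective.comp f.injective
  obtain ⟨s, hs, hacc⟩ := Set.Infinite.exists_accPt_of_subset_isCompact
    (Set.infinite_range_of_injective hfinj) (isClosed_Cset p).isCompact hfC
  rw [accPt_iff_frequently] at hacc
  have hss := hidem s hs
  -- separating sets
  have hsep : ∀ t ∈ Cset p, t ≠ s → ∃ B ∈ t, ∀ x : G, x ≠ 0 → ∀ᶠ y in (s : Filter G), x + y ∉ B := by
    intro t ht hts
    let K : Set (Ultrafilter G) := (fun u => u + s) '' {u | ({0}ᶜ : Set G) ∈ u}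
    have hK : IsClosed K := ((isClosed_mem _).isCompact.image (continuous_uadd s)).isClosed
    have htK : t ∈ Kᶜ := by
      rintro ⟨u, hu, hus⟩
      apply hts
      have h1 : t + s = s := T.right_zero hp hmax ht hs hss
      have hus' : u + s = t := hus
      calc t = u + s := hus'.symm
        _ = u + (s + s) := by rw [hss]
        _ = (u + s) + s := by rw [add_assoc]
        _ = s := by rw [hus', h1]
    obtain ⟨_, ⟨A, rfl⟩, hA, hAK⟩ :=
      ultrafilterBasis_is_basis.exists_subset_of_mem_open htK hK.isOpen_compl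
    refine ⟨A, hA, fun x hx => ?_⟩
    by_contra hcon
    rw [Ultrafilter.eventually_not, not_not] at hcon
    have h1 : (pure x + s : Ultrafilter G) ∈ K := by
      refine ⟨pure x, ?_, rfl⟩
      change ({0}ᶜ : Set G) ∈ (pure x : Ultrafilter G)
      rw [Ultrafilter.mem_pure]
      exact hx
    have h2 : (pure x + s : Ultrafilter G) ∈ {u : Ultrafilter G | A ∈ u} := by
      change A ∈ (pure x + s : Ultrafilter G)
      rw [mem_uadd]
      change ∀ᶠ z in (pure x : Filter G), ∀ᶠ y in (s : Filter G), z + y ∈ A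
      rw [eventually_pure]
      exact hcon
    exact hAK h2 h1
  have hB : ∀ n : ℕ, ∃ B : Set G, ((f n : Ultrafilter G) ≠ s → B ∈ (f n : Ultrafilter G)) ∧
      ∀ x : G, x ≠ 0 → ∀ᶠ y in (s : Filter G), x + y ∉ B := by
    intro n
    by_cases hn : (f n : Ultrafilter G) = s
    · exact ⟨∅, fun h => absurd hn h, fun x _ => by simp⟩
    · obtain ⟨B, hB1, hB2⟩ := hsep _ (f n).2 hn
      exact ⟨B, fun _ => hB1, hB2⟩
  choose B hB1 hB2 using hB
  let W1 : Set G := {z | ∃ n, z ∈ B n ∧ n ≤ S.nu z}
  let W2 : Set G := {z | ∃ x y, x ≠ 0 ∧ z = x + y ∧ S.Low x y ∧ ∀ n, n ≤ S.nu x → x + y ∉ B n}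
  have hdisj : W1 ∩ W2 = ∅ := by
    rw [Set.eq_empty_iff_forall_notMem]
    rintro z ⟨⟨n, hn1, hn2⟩, ⟨x, y, hx, rfl, hxy, hall⟩⟩
    rw [hxy.nu_add hx] at hn2
    exact hall n hn2 hn1
  have hW1 : ∀ n, (f n : Ultrafilter G) ≠ s → W1 ∈ (f n : Ultrafilter G) := by
    intro n hn
    have hL := T.Cset_subset hp (f n).2
    have hnu : ∀ᶠ z in ((f n : Ultrafilter G) : Filter G), n ≤ S.nu z := by
      by_contra hcon
      rw [← Ultrafilter.eventually_not] at hcon
      -- the values of nu are bounded, impossible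
      have : ∀ m : ℕ, m ≤ n → ∀ᶠ z in ((f n : Ultrafilter G) : Filter G), m ≤ S.nu z := by
        intro m
        induction m with
        | zero => intro _; exact Eventually.of_forall fun z => Nat.zero_le _
        | succ m ih =>
          intro hm
          have h1 := ih (by omega)
          -- pick an element and use Far
          have h0 : ∀ᶠ z in ((f n : Ultrafilter G) : Filter G), S.Far ∅ z := T.far _ hL ∅
          obtain ⟨z0, hz0, hz1⟩ := (h0.and h1).exists
          obtain ⟨i, hi, hi'⟩ := SuppData.exists_mem_nu (S := S) hz0.1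
          filter_upwards [T.far _ hL {i}] with z hz
          have := hz.2.2 i (Finset.mem_singleton_self i)
          omega
      obtain ⟨z, hz1, hz2⟩ := (hcon.and (this n le_rfl)).exists
      exact hz1 hz2
    filter_upwards [hB1 n hn, hnu] with z h1 h2
    exact ⟨n, h1, h2⟩
  have hW2 : W2 ∈ s := by
    have hsL := T.Cset_subset hp hs
    have : W2 ∈ s + s := by
      rw [mem_uadd]
      filter_upwards [hs.1] with x hx
      have h1 : ∀ᶠ y in (s : Filter G), ∀ n ∈ Set.Iic (S.nu x), x + y ∉ B n := by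
        rw [eventually_all_finite (Set.finite_Iic _)]
        intro n _
        exact hB2 n x hx
      filter_upwards [h1, T.far s hsL (S.supp x)] with y h2 h3
      exact ⟨x, y, hx, rfl, h3.low, fun n hn => h2 n hn⟩
    rwa [hss] at this
  have hW1s : W1 ∈ s := by
    by_contra hcon
    have h1 : ∀ᶠ t in 𝓝 s, W1ᶜ ∈ t := by
      refine (ultrafilter_isOpen_basic W1ᶜ).mem_nhds ?_
      exact Ultrafilter.compl_mem_iff_notMem.2 hcon
    obtain ⟨t, ⟨htne, n, rfl⟩, ht2⟩ := (hacc.and_eventually h1).exists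
    have h2 := hW1 n htne
    have h3 : W1 ∩ W1ᶜ ∈ (f n : Ultrafilter G) := inter_mem h2 ht2
    rw [Set.inter_compl_self] at h3
    exact Ultrafilter.empty_notMem h3
  have : W1 ∩ W2 ∈ s := inter_mem hW1s hW2
  rw [hdisj] at this
  exact Ultrafilter.empty_notMem this

variable (T)

theorem Sys.main : ∃ p ∈ T.L, p + p = p ∧ (Cset p).Finite ∧
    ∀ s ∈ Cset p, ∀ t ∈ Cset p, s + t = t := by
  obtain ⟨p, hp, hpp, hmax⟩ := T.exists_right_max
  refine ⟨p, hp, hpp, T.finite_Cset hp hpp hmax, ?_⟩
  intro s hs t ht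
  exact T.right_zero hp hmax hs ht (T.all_idem hp hpp hmax ht)

end sys

end Pool.Agent.LibMaxTop
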