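import Mathlib
import Pool.Agent.LibMaxTop.Ultra

set_option autoImplicit false

namespace Pool.Agent.LibMaxTop

open Filter Set Topology

universe u v

attribute [local instance] Ultrafilter.add Ultrafilter.addSemigroup

variable {G : Type u} {I : Type v} [AddCommGroup G] [LinearOrder I]
variable {S : SuppData G I}

theorem idem_iff {p : Ultrafilter G} (hpp : p + p = p) (P : G → Prop) :
    (∀ᶠ y in (p : Filter G), ∀ᶠ z in (p : Filter G), P (y + z)) ↔ ∀ᶠ z in (p : Filter G), P z := by
  have : (∀ᶠ y in (p : Filter G), ∀ᶠ z in (p : Filter G), P (y + z)) ↔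
      {z | P z} ∈ p + p := Iff.rfl
  rw [this, hpp]
  rfl

theorem rz_iff {p s : Ultrafilter G} (h : p + s = s) (P : G → Prop) :
    (∀ᶠ y in (p : Filter G), ∀ᶠ z in (s : Filter G), P (y + z)) ↔ ∀ᶠ z in (s : Filter G), P z := by
  have : (∀ᶠ y in (p : Filter G), ∀ᶠ z in (s : Filter G), P (y + z)) ↔
      {z | P z} ∈ p + s := Iff.rfl
  rw [this, h]
  rfl

theorem Sys.nu_ge (T : Sys S) {r : Ultrafilter G} (hr : r ∈ T.L) (n : ℕ) :
    ∀ᶠ z in (r : Filter G), n ≤ S.nu z := by
  induction n with
  | zero => exact Eventually.of_forall fun z => Nat.zero_le _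
  | succ n ih =>
    have h0 : ∀ᶠ z in (r : Filter G), S.Far ∅ z := T.far _ hr ∅
    obtain ⟨z0, hz0, hz1⟩ := (h0.and ih).exists
    obtain ⟨i, hi, hi'⟩ := SuppData.exists_mem_nu (S := S) hz0.1
    have h2 : ∀ᶠ z in (r : Filter G), S.Far {i} z := T.far _ hr {i}
    filter_upwards [h2] with z hz
    have := hz.2.2 i (Finset.mem_singleton_self i)
    omega

/-- base of neighbourhoods -/
theorem exists_base {p : Ultrafilter G} (N : Set G) (hN : ∀ s ∈ Cset p, N ∈ s) :
    ∃ B ∈ p, ∀ w, w ≠ 0 → (∀ᶠ y in (p : Filter G), w + y ∈ B) → w ∈ N := by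
  by_contra hcon
  push Not at hcon
  let E : Set G → Set G := fun B => {w | w ≠ 0 ∧ (∀ᶠ y in (p : Filter G), w + y ∈ B) ∧ w ∉ N}
  let F : Filter G :=
    { sets := {A | ∃ B ∈ p, E B ⊆ A}
      univ_sets := ⟨Set.univ, univ_mem, Set.subset_univ _⟩
      sets_of_superset := by
        rintro A A' ⟨B, hB, h⟩ h'
        exact ⟨B, hB, h.trans h'⟩
      inter_sets := by
        rintro A A' ⟨B, hB, h⟩ ⟨B', hB', h'⟩
        refine ⟨B ∩ B', inter_mem hB hB', ?_⟩
        rintro w ⟨hw1, hw2, hw3⟩
        constructor
        · exact h ⟨hw1, hw2.mono fun y hy => hy.1, hw3⟩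
        · exact h' ⟨hw1, hw2.mono fun y hy => hy.2, hw3⟩ }
  have hne : F.NeBot := by
    constructor
    intro hbot
    have : (∅ : Set G) ∈ F := by rw [hbot]; exact mem_bot
    obtain ⟨B, hB, h⟩ := this
    obtain ⟨w, hw1, hw2, hw3⟩ := hcon B hB
    exact h ⟨hw1, hw2, hw3⟩
  let r : Ultrafilter G := Ultrafilter.of F
  have hr : ∀ B ∈ p, E B ∈ r := fun B hB => Ultrafilter.of_le F ⟨B, hB, Set.Subset.rfl⟩
  have h0 : ({0}ᶜ : Set G) ∈ r := mem_of_superset (hr _ univ_mem) fun w hw => hw.1
  have h1 : r + p = p := by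
    apply Ultrafilter.coe_injective
    refine Ultrafilter.unique p ?_ (hne := (r + p).neBot)
    intro B hB
    change B ∈ r + p
    rw [mem_uadd]
    filter_upwards [hr B hB] with w hw
    exact hw.2.1
  have h2 : N ∈ r := hN r ⟨h0, h1⟩
  have h3 : E Set.univ ∩ N ∈ r := inter_mem (hr _ univ_mem) h2
  have h4 : E Set.univ ∩ N = ∅ := by
    rw [Set.eq_empty_iff_forall_notMem]
    rintro w ⟨hw1, hw2⟩
    exact hw1.2.2 hw2
  rw [h4] at h3
  exact Ultrafilter.empty_notMem h3

/-- Local data used to build the new ultrafilter. -/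
structure LocalData (T : Sys S) (p : Ultrafilter G) where
  X : Set G
  U : G → Set G
  hX : X ∈ p
  zero_notMem : (0 : G) ∉ X
  openX : ∀ x ∈ X, ∀ᶠ y in (p : Filter G), x + y ∈ X
  reg : ∀ A ∈ p, ∃ B ∈ p, B ⊆ A ∧ ∀ x ∈ X, (∀ᶠ y in (p : Filter G), x + y ∈ B) → x ∈ A
  zero_memU : ∀ x ∈ X, (0 : G) ∈ U x
  clopen : ∀ x ∈ X, ∀ w, w ∈ U x ↔ ∀ᶠ y in (p : Filter G), w + y ∈ U x
  far : ∀ x ∈ X, ∀ w ∈ U x, w ≠ 0 → S.Far (S.supp x) w
  same : ∀ x ∈ X, ∀ w ∈ U x, w ≠ 0 → (x + w ∈ X ↔ w ∈ X)

theorem exists_localData (T : Sys S) {p : Ultrafilter G} (hp : p ∈ T.L) (hpp : p + p = p)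
    (hfin : (Cset p).Finite) (hrz : ∀ s ∈ Cset p, ∀ t ∈ Cset p, s + t = t)
    {D : Set G} (hD : D ∈ p) : ∃ W : LocalData T p, W.X ⊆ D := by
  have hpC : p ∈ Cset p := ⟨T.compl_zero hp, hpp⟩
  -- separate p from the other members
  have hsep : ∀ s : Ultrafilter G, ∃ B ∈ p, s ≠ p → B ∉ s := by
    intro s
    by_cases hs : s = p
    · exact ⟨Set.univ, univ_mem, fun h => absurd hs h⟩
    · by_contra hcon
      push Not at hcon
      apply hs
      apply Ultrafilter.coe_injective
      refine Ultrafilter.unique p ?_ (hne := s.neBot)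
      intro B hB
      exact (hcon B hB).2
  choose Bs hBs1 hBs2 using hsep
  let X1 : Set G := D ∩ ⋂ s ∈ Cset p, Bs s
  have hX1 : X1 ∈ p := by
    refine inter_mem hD ?_
    exact (biInter_mem hfin).2 fun s _ => hBs1 s
  have hX1s : ∀ s ∈ Cset p, s ≠ p → X1 ∉ s := by
    intro s hs hsp hX
    apply hBs2 s hsp
    refine mem_of_superset hX ?_
    rintro x ⟨_, hx⟩
    exact Set.mem_iInter₂.1 hx s hs
  let X : Set G := {x | x ∈ X1 ∧ x ≠ 0 ∧ (∀ᶠ y in (p : Filter G), x + y ∈ X1) ∧
    ∀ s ∈ Cset p, s ≠ p → ∀ᶠ y in (s : Filter G), x + y ∉ X1}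
  have hcompl : ∀ s ∈ Cset p, s ≠ p → ∀ᶠ z in (s : Filter G), z ∉ X1 := by
    intro s hs hsp
    exact Ultrafilter.compl_mem_iff_notMem.2 (hX1s s hs hsp)
  have hX : X ∈ p := by
    have h1 : ∀ᶠ x in (p : Filter G), ∀ᶠ y in (p : Filter G), x + y ∈ X1 :=
      (idem_iff hpp (fun z => z ∈ X1)).2 hX1
    have h2 : ∀ᶠ x in (p : Filter G), ∀ s ∈ Cset p, s ≠ p → ∀ᶠ y in (s : Filter G), x + y ∉ X1 := by
      rw [eventually_all_finite hfin]
      intro s hs
      by_cases hsp : s = p
      · exact Eventually.of_forall fun x h => absurd hsp h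
      · have := (rz_iff (hrz p hpC s hs) (fun z => z ∉ X1)).2 (hcompl s hs hsp)
        filter_upwards [this] with x hx _
        exact hx
    filter_upwards [hX1, T.compl_zero hp, h1, h2] with x a b c d
    exact ⟨a, b, c, d⟩
  have hopen : ∀ x ∈ X, ∀ᶠ y in (p : Filter G), x + y ∈ X := by
    rintro x ⟨hx1, hx2, hx3, hx4⟩
    have h1 : ∀ᶠ y in (p : Filter G), ∀ᶠ z in (p : Filter G), x + (y + z) ∈ X1 :=
      (idem_iff hpp (fun z => x + z ∈ X1)).2 hx3
    have h2 : ∀ᶠ y in (p : Filter G), ∀ s ∈ Cset p, s ≠ p →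
        ∀ᶠ z in (s : Filter G), x + (y + z) ∉ X1 := by
      rw [eventually_all_finite hfin]
      intro s hs
      by_cases hsp : s = p
      · exact Eventually.of_forall fun x h => absurd hsp h
      · have := (rz_iff (hrz p hpC s hs) (fun z => x + z ∉ X1)).2 (hx4 s hs hsp)
        filter_upwards [this] with x hx _
        exact hx
    have h3 : ∀ᶠ y in (p : Filter G), S.Far (S.supp x) y := T.far p hp _
    filter_upwards [hx3, h1, h2, h3] with y a b c d
    refine ⟨a, d.low.add_ne_zero hx2, ?_, ?_⟩
    · filter_upwards [b] with z hz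
      rwa [add_assoc]
    · intro s hs hsp
      filter_upwards [c s hs hsp] with z hz
      rwa [add_assoc]
  have hXs : ∀ s ∈ Cset p, s ≠ p → ∀ᶠ z in (s : Filter G), z ∉ X := by
    intro s hs hsp
    filter_upwards [hcompl s hs hsp] with z hz hzX
    exact hz hzX.1
  have hN : ∀ x : G, ∃ B : Set G, x ∈ X → B ∈ p ∧
      ∀ w, w ≠ 0 → (∀ᶠ y in (p : Filter G), w + y ∈ B) →
        S.Far (S.supp x) w ∧ (x + w ∈ X ↔ w ∈ X) := by
    intro x
    by_cases hx : x ∈ X
    · obtain ⟨B, hB, hB'⟩ := exists_base (p := p)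
        {w | S.Far (S.supp x) w ∧ (x + w ∈ X ↔ w ∈ X)} (by
          intro s hs
          have h1 : ∀ᶠ y in (s : Filter G), S.Far (S.supp x) y :=
            T.far s (T.Cset_subset hp hs) _
          by_cases hsp : s = p
          · subst hsp
            filter_upwards [h1, hopen x hx, hX] with w a b c
            exact ⟨a, by tauto⟩
          · have h2 : ∀ᶠ y in (s : Filter G), x + y ∉ X := by
              filter_upwards [hx.2.2.2 s hs hsp] with y hy hyX
              exact hy hyX.1
            filter_upwards [h1, h2, hXs s hs hsp] with w a b c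
            exact ⟨a, by tauto⟩)
      exact ⟨B, fun _ => ⟨hB, hB'⟩⟩
    · exact ⟨∅, fun h => absurd h hx⟩
  choose B hB using hN
  refine ⟨⟨X, fun x => {w | ∀ᶠ y in (p : Filter G), w + y ∈ B x}, hX,
    fun h => h.2.1 rfl, hopen, ?_, ?_, ?_, ?_, ?_⟩, ?_⟩
  · intro A hA
    obtain ⟨B0, hB0, hB0'⟩ := exists_base (p := p) (A ∪ Xᶜ) (by
      intro s hs
      by_cases hsp : s = p
      · subst hsp
        exact mem_of_superset hA Set.subset_union_left
      · exact mem_of_superset (hXs s hs hsp) Set.subset_union_right)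
    refine ⟨B0 ∩ A, inter_mem hB0 hA, Set.inter_subset_right, ?_⟩
    intro x hx hev
    have := hB0' x hx.2.1 (hev.mono fun y hy => hy.1)
    rcases this with h | h
    · exact h
    · exact absurd hx h
  · intro x hx
    change ∀ᶠ y in (p : Filter G), 0 + y ∈ B x
    filter_upwards [(hB x hx).1] with y hy
    rwa [zero_add]
  · intro x hx w
    change (∀ᶠ y in (p : Filter G), w + y ∈ B x) ↔
      ∀ᶠ y in (p : Filter G), ∀ᶠ z in (p : Filter G), w + y + z ∈ B x
    have := idem_iff hpp (fun z => w + z ∈ B x)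
    rw [← this]
    simp only [add_assoc]
  · intro x hx w hw hw0
    exact ((hB x hx).2 w hw0 hw).1
  · intro x hx w hw hw0
    exact ((hB x hx).2 w hw0 hw).2
  · rintro x ⟨hx, _⟩
    exact hx.1

section delta

variable {T : Sys S} {p : Ultrafilter G} (W : LocalData T p)

/-- candidates for the first summand -/
def Cand (z : G) : Set G := {x | x ∈ W.X ∧ z - x ∈ W.X ∧ z - x ∈ W.U x}

theorem Cand.ne_zero {x z : G} (h : x ∈ Cand W z) : x ≠ 0 := by
  intro h0
  have := h.1
  rw [h0] at this
  exact W.zero_notMem this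

theorem Cand.sub_ne_zero {x z : G} (h : x ∈ Cand W z) : z - x ≠ 0 := by
  intro h0
  have := h.2.1
  rw [h0] at this
  exact W.zero_notMem this

theorem Cand.far {x z : G} (h : x ∈ Cand W z) : S.Far (S.supp x) (z - x) :=
  W.far x h.1 _ h.2.2 (Cand.sub_ne_zero W h)

theorem Cand.init {x z : G} (h : x ∈ Cand W z) : S.Init x z := (Cand.far W h).low

/-- the shortest candidate -/
def IsFirst (x z : G) : Prop :=
  x ∈ Cand W z ∧ ∀ x' ∈ Cand W z, (S.supp x).card ≤ (S.supp x').card

theorem exists_isFirst {z : G} (h : (Cand W z).Nonempty) : ∃ x, IsFirst W x z := by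
  obtain ⟨x, hx, hmin⟩ := exists_min_of_card W z h
  exact ⟨x, hx, hmin⟩
where
  exists_min_of_card (W : LocalData T p) (z : G) (h : (Cand W z).Nonempty) :
      ∃ x ∈ Cand W z, ∀ x' ∈ Cand W z, (S.supp x).card ≤ (S.supp x').card := by
    have h1 : ((fun x => (S.supp x).card) '' Cand W z).Nonempty := h.image _
    obtain ⟨x, hx, hx'⟩ := Nat.sInf_mem h1
    refine ⟨x, hx, fun x' hx2 => ?_⟩
    have : sInf ((fun x => (S.supp x).card) '' Cand W z) ≤ (S.supp x').card :=
      Nat.sInf_le ⟨x', hx2, rfl⟩
    rw [← hx'] at this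
    exact this

theorem IsFirst.unique {x x' z : G} (h : IsFirst W x z) (h' : IsFirst W x' z) : x = x' := by
  have h1 := h.2 x' h'.1
  have h2 := h'.2 x h.1
  rcases (Cand.init W h.1).total (Cand.init W h'.1) with h3 | h3
  · exact h3.eq_of_card h2
  · exact (h3.eq_of_card h1).symm

theorem IsFirst.card_lt {x z : G} (h : IsFirst W x z) : (S.supp (z - x)).card < (S.supp z).card := by
  have h1 := (Cand.init W h.1).card_eq
  have h2 := Finset.card_pos.2 (S.supp_nonempty (Cand.ne_zero W h.1))
  omega

open Classical in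
/-- auxiliary recursion with fuel -/
noncomputable def deltaAux (en : ℕ → G) : ℕ → G → G
  | 0, _ => 0
  | (n + 1), z => en (S.nu z) +
      (if h : (Cand W z).Nonempty then deltaAux en n (z - (exists_isFirst W h).choose) else 0)

noncomputable def delta (en : ℕ → G) (z : G) : G := deltaAux W en (S.supp z).card z

open Classical in
theorem deltaAux_succ (en : ℕ → G) (n : ℕ) (z : G) : deltaAux W en (n + 1) z = en (S.nu z) +
    (if h : (Cand W z).Nonempty then deltaAux W en n (z - (exists_isFirst W h).choose) else 0) := by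
  rw [deltaAux]

theorem deltaAux_stable (en : ℕ → G) : ∀ (n : ℕ) (z : G), z ≠ 0 → (S.supp z).card ≤ n →
    deltaAux W en n z = delta W en z := by
  intro n
  induction n using Nat.strong_induction_on with
  | _ n ih =>
    intro z hz hn
    have hpos := Finset.card_pos.2 (S.supp_nonempty hz)
    unfold delta
    obtain ⟨m, hm⟩ : ∃ m, n = m + 1 := ⟨n - 1, by omega⟩
    obtain ⟨k, hk⟩ : ∃ k, (S.supp z).card = k + 1 := ⟨(S.supp z).card - 1, by omega⟩
    rw [hk, hm, deltaAux_succ, deltaAux_succ]
    congr 1
    by_cases h : (Cand W z).Nonempty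
    · rw [dif_pos h, dif_pos h]
      have hf := (exists_isFirst W h).choose_spec
      have hlt := IsFirst.card_lt W hf
      have hne := Cand.sub_ne_zero W hf.1
      by_cases hkm : k = m
      · rw [hkm]
      · rw [ih m (by omega) _ hne (by omega), ih k (by omega) _ hne (by omega)]
    · rw [dif_neg h, dif_neg h]

theorem delta_of_empty (en : ℕ → G) {z : G} (hz : z ≠ 0) (h : ¬ (Cand W z).Nonempty) :
    delta W en z = en (S.nu z) := by
  have hpos := Finset.card_pos.2 (S.supp_nonempty hz)
  obtain ⟨k, hk⟩ : ∃ k, (S.supp z).card = k + 1 := ⟨(S.supp z).card - 1, by omega⟩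
  unfold delta
  rw [hk, deltaAux_succ, dif_neg h, add_zero]

theorem delta_of_first (en : ℕ → G) {x z : G} (h : IsFirst W x z) (hz : z ≠ 0) :
    delta W en z = en (S.nu z) + delta W en (z - x) := by
  have hpos := Finset.card_pos.2 (S.supp_nonempty hz)
  obtain ⟨k, hk⟩ : ∃ k, (S.supp z).card = k + 1 := ⟨(S.supp z).card - 1, by omega⟩
  have hne : (Cand W z).Nonempty := ⟨x, h.1⟩
  have hx : (exists_isFirst W hne).choose = x := (exists_isFirst W hne).choose_spec.unique W h
  have hlt := IsFirst.card_lt W h
  conv_lhs => unfold delta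
  rw [hk, deltaAux_succ, dif_pos hne, hx, deltaAux_stable W en k _ (Cand.sub_ne_zero W h.1) (by omega)]

theorem delta_mem (en : ℕ → G) : ∀ (z : G), z ≠ 0 → ∃ l : List ℕ, delta W en z = (l.map en).sum := by
  suffices H : ∀ n : ℕ, ∀ z : G, z ≠ 0 → (S.supp z).card = n →
      ∃ l : List ℕ, delta W en z = (l.map en).sum by
    intro z hz
    exact H _ z hz rfl
  intro n
  induction n using Nat.strong_induction_on with
  | _ n ih =>
    intro z hz hn
    by_cases h : (Cand W z).Nonempty
    · obtain ⟨x, hx⟩ := exists_isFirst W h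
      have hlt := IsFirst.card_lt W hx
      obtain ⟨l, hl⟩ := ih _ (by omega) _ (Cand.sub_ne_zero W hx.1) rfl
      refine ⟨S.nu z :: l, ?_⟩
      rw [delta_of_first W en hx hz, hl]
      simp
    · refine ⟨[S.nu z], ?_⟩
      rw [delta_of_empty W en hz h]
      simp

variable {ι : ℕ → I} {en : ℕ → G} (hen : ∀ n, S.supp (en n) = {ι n})

include hen in
/-- support of the correction term -/
theorem supp_delta : ∀ z : G, z ≠ 0 → ∀ i ∈ S.supp (delta W en z), ∃ m, S.nu z ≤ m ∧ i = ι m := by
  suffices H : ∀ n : ℕ, ∀ z : G, z ≠ 0 → (S.supp z).card = n →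
      ∀ i ∈ S.supp (delta W en z), ∃ m, S.nu z ≤ m ∧ i = ι m by
    intro z hz
    exact H _ z hz rfl
  intro n
  induction n using Nat.strong_induction_on with
  | _ n ih =>
    intro z hz hn i hi
    by_cases h : (Cand W z).Nonempty
    · obtain ⟨x, hx⟩ := exists_isFirst W h
      have hlt := IsFirst.card_lt W hx
      rw [delta_of_first W en hx hz] at hi
      have := S.supp_add _ _ hi
      rw [Finset.mem_union, hen, Finset.mem_singleton] at this
      rcases this with h1 | h1
      · exact ⟨_, le_rfl, h1⟩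
      · obtain ⟨m, hm1, hm2⟩ := ih _ (by omega) _ (Cand.sub_ne_zero W hx.1) rfl i h1
        refine ⟨m, ?_, hm2⟩
        have h2 := (Cand.far W hx.1).nu_lt (Cand.ne_zero W hx.1)
        have h3 := (Cand.init W hx.1).nu_eq (Cand.ne_zero W hx.1)
        omega
    · rw [delta_of_empty W en hz h, hen, Finset.mem_singleton] at hi
      exact ⟨_, le_rfl, hi⟩

include hen in
/-- the leading coordinate -/
theorem supp_delta_sub : ∀ z : G, z ≠ 0 → ∀ i ∈ S.supp (delta W en z - en (S.nu z)),
    ∃ m, S.nu z < m ∧ i = ι m := by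
  intro z hz i hi
  by_cases h : (Cand W z).Nonempty
  · obtain ⟨x, hx⟩ := exists_isFirst W h
    rw [delta_of_first W en hx hz, add_sub_cancel_left] at hi
    obtain ⟨m, hm1, hm2⟩ := supp_delta W hen _ (Cand.sub_ne_zero W hx.1) i hi
    refine ⟨m, ?_, hm2⟩
    have h2 := (Cand.far W hx.1).nu_lt (Cand.ne_zero W hx.1)
    have h3 := (Cand.init W hx.1).nu_eq (Cand.ne_zero W hx.1)
    omega
  · rw [delta_of_empty W en hz h, sub_self, S.supp_zero] at hi
    simp at hi

/-- the correction term is a local homomorphism on `X` -/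
theorem delta_add (hp : p ∈ T.L) : ∀ x ∈ W.X, ∀ᶠ y in (p : Filter G),
    delta W en (x + y) = delta W en x + delta W en y := by
  suffices H : ∀ n : ℕ, ∀ x ∈ W.X, (S.supp x).card = n → ∀ᶠ y in (p : Filter G),
      delta W en (x + y) = delta W en x + delta W en y by
    intro x hx
    exact H _ x hx rfl
  intro n
  induction n using Nat.strong_induction_on with
  | _ n ih =>
    intro x hx hn
    have hx0 : x ≠ 0 := fun h => W.zero_notMem (h ▸ hx)
    have e1 : ∀ᶠ y in (p : Filter G), x + y ∈ W.X := W.openX x hx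
    have e2 : ∀ᶠ y in (p : Filter G), y ∈ W.X := W.hX
    have e3 : ∀ᶠ y in (p : Filter G), S.Far (S.supp x) y := T.far p hp _
    have e4 : ∀ᶠ y in (p : Filter G), y ∈ W.U x := by
      have := (W.clopen x hx 0).1 (W.zero_memU x hx)
      filter_upwards [this] with y hy
      rwa [zero_add] at hy
    have e5 : ∀ᶠ y in (p : Filter G), ∀ x' ∈ {x' | S.Init x' x}, x' ≠ x →
        (x' ∈ Cand W (x + y) ↔ x' ∈ Cand W x) := by
      rw [eventually_all_finite (SuppData.init_finite x)]
      intro x' _
      by_cases hxx : x' = x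
      · exact Eventually.of_forall fun y h => absurd hxx h
      by_cases hx'X : x' ∈ W.X
      · by_cases hc : x - x' ∈ W.U x'
        · have hw0 : x - x' ≠ 0 := sub_ne_zero.2 (Ne.symm hxx)
          have hs := W.same x' hx'X _ hc hw0
          rw [add_sub_cancel] at hs
          have hw : x - x' ∈ W.X := hs.1 hx
          filter_upwards [(W.clopen x' hx'X _).1 hc, W.openX _ hw] with y a b _
          have h1 : x + y - x' = x - x' + y := by abel
          unfold Cand
          simp only [Set.mem_ofPred_eq, h1]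
          tauto
        · have h2 : ¬ ∀ᶠ y in (p : Filter G), x - x' + y ∈ W.U x' := fun h =>
            hc ((W.clopen x' hx'X _).2 h)
          rw [← Ultrafilter.eventually_not] at h2
          filter_upwards [h2] with y a _
          have h1 : x + y - x' = x - x' + y := by abel
          unfold Cand
          simp only [Set.mem_ofPred_eq, h1]
          tauto
      · refine Eventually.of_forall fun y _ => ?_
        constructor
        · intro h; exact absurd h.1 hx'X
        · intro h; exact absurd h.1 hx'X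
    by_cases h : (Cand W x).Nonempty
    · obtain ⟨x1, hx1⟩ := exists_isFirst W h
      have hlt := IsFirst.card_lt W hx1
      have hx1x : x1 ≠ x := by
        intro h1
        apply Cand.sub_ne_zero W hx1.1
        rw [h1, sub_self]
      have e6 := ih _ (by omega) _ hx1.1.2.1 rfl
      filter_upwards [e1, e2, e3, e4, e5, e6] with y a1 a2 a3 a4 a5 a6
      have hfirst : IsFirst W x1 (x + y) := by
        refine ⟨(a5 x1 (Cand.init W hx1.1) hx1x).2 hx1.1, ?_⟩
        intro x' hx'
        rcases (Cand.init W hx').of_low a3.low with hi | ⟨hi, _⟩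
        · by_cases hxx : x' = x
          · rw [hxx]
            exact (Cand.init W hx1.1).card_le
          · exact hx1.2 x' ((a5 x' hi hxx).1 hx')
        · exact (Cand.init W hx1.1).card_le.trans hi.card_le
      have hxy0 : x + y ≠ 0 := a3.low.add_ne_zero hx0
      rw [delta_of_first W en hfirst hxy0, delta_of_first W en hx1 hx0, a3.low.nu_add hx0]
      have h1 : x + y - x1 = x - x1 + y := by abel
      rw [h1, a6, add_assoc]
    · filter_upwards [e1, e2, e3, e4, e5] with y a1 a2 a3 a4 a5
      have hfirst : IsFirst W x (x + y) := by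
        refine ⟨⟨hx, ?_, ?_⟩, ?_⟩
        · rwa [add_sub_cancel_left]
        · rwa [add_sub_cancel_left]
        · intro x' hx'
          rcases (Cand.init W hx').of_low a3.low with hi | ⟨hi, _⟩
          · by_cases hxx : x' = x
            · rw [hxx]
            · exact absurd ⟨x', (a5 x' hi hxx).1 hx'⟩ h
          · exact hi.card_le
      have hxy0 : x + y ≠ 0 := a3.low.add_ne_zero hx0
      rw [delta_of_first W en hfirst hxy0, delta_of_empty W en hx0 h, a3.low.nu_add hx0,
        add_sub_cancel_left]

include hen in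
/-- away from `X` the leading coordinate is missing -/
theorem delta_missing (hι : Function.Injective ι) (hp : p ∈ T.L) : ∀ g : G, g ≠ 0 → g ∉ W.X →
    ∀ᶠ y in (p : Filter G), g + y ∈ W.X → ι (S.nu y) ∉ S.supp (delta W en (g + y)) := by
  suffices H : ∀ n : ℕ, ∀ g : G, g ≠ 0 → g ∉ W.X → (S.supp g).card = n →
      ∀ᶠ y in (p : Filter G), g + y ∈ W.X → ι (S.nu y) ∉ S.supp (delta W en (g + y)) by
    intro g hg hgX
    exact H _ g hg hgX rfl
  intro n
  induction n using Nat.strong_induction_on with
  | _ n ih =>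
    intro g hg hgX hn
    have e3 : ∀ᶠ y in (p : Filter G), S.Far (S.supp g) y := T.far p hp _
    have e5 : ∀ᶠ y in (p : Filter G), ∀ x' ∈ {x' | S.Init x' g}, x' ≠ g → x' ∈ W.X →
        g - x' + y ∈ W.X → g - x' + y ∈ W.U x' →
          ι (S.nu y) ∉ S.supp (delta W en (g - x' + y)) := by
      rw [eventually_all_finite (SuppData.init_finite g)]
      intro x' hx'i
      by_cases hxx : x' = g
      · exact Eventually.of_forall fun y h => absurd hxx h
      by_cases hx'X : x' ∈ W.X
      · have hw0 : g - x' ≠ 0 := sub_ne_zero.2 (Ne.symm hxx)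
        by_cases hw : g - x' ∈ W.X
        · have h2 : ¬ ∀ᶠ y in (p : Filter G), g - x' + y ∈ W.U x' := by
            intro hev
            have h3 := (W.clopen x' hx'X _).2 hev
            have h4 := W.same x' hx'X _ h3 hw0
            rw [add_sub_cancel] at h4
            exact hgX (h4.2 hw)
          rw [← Ultrafilter.eventually_not] at h2
          filter_upwards [h2] with y a _ _ _ h6
          exact absurd h6 a
        · have hcard : (S.supp (g - x')).card < (S.supp g).card := by
            have h1 := SuppData.Init.card_eq hx'i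
            have h2 := Finset.card_pos.2 (S.supp_nonempty (fun h0 : x' = 0 =>
              W.zero_notMem (h0 ▸ hx'X)))
            omega
          filter_upwards [ih _ (by omega) (g - x') hw0 hw rfl] with y a _ _ h5 _
          exact a h5
      · exact Eventually.of_forall fun y _ h => absurd h hx'X
    filter_upwards [e3, e5] with y a3 a5 hz
    have hz0 : g + y ≠ 0 := a3.low.add_ne_zero hg
    have hnu : S.nu (g + y) = S.nu g := a3.low.nu_add hg
    have hlt : S.nu g < S.nu y := a3.nu_lt hg
    intro hmem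
    by_cases h : (Cand W (g + y)).Nonempty
    · obtain ⟨x1, hx1⟩ := exists_isFirst W h
      rw [delta_of_first W en hx1 hz0] at hmem
      have h1 := S.supp_add _ _ hmem
      rw [Finset.mem_union, hen, Finset.mem_singleton] at h1
      rcases h1 with h1 | h1
      · have := hι h1
        omega
      · rcases (Cand.init W hx1.1).of_low a3.low with hi | ⟨hi, hi'⟩
        · have hne : x1 ≠ g := fun h0 => hgX (h0 ▸ hx1.1.1)
          have h2 : g + y - x1 = g - x1 + y := by abel
          have h3 := hx1.1.2
          rw [h2] at h3 h1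
          exact a5 x1 hi hne hx1.1.1 h3.1 h3.2 h1
        · have hne : x1 - g ≠ 0 := sub_ne_zero.2 (fun h0 => hgX (h0 ▸ hx1.1.1))
          obtain ⟨m, hm1, hm2⟩ := supp_delta W hen _ (Cand.sub_ne_zero W hx1.1) _ h1
          have h4 := hι hm2
          have h5 := hi'.nu_eq hne
          obtain ⟨i, hi1, hi2⟩ := SuppData.exists_mem_nu (S := S) hne
          have h6 := (Cand.far W hx1.1).2.2 i (hi.supp_sub_subset hi1)
          omega
    · rw [delta_of_empty W en hz0 h, hen, Finset.mem_singleton] at hmem
      have := hι hmem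
      omega

end delta

/-- Main theorem of this file. -/
theorem Sys.exists_regular (T : Sys S) (ι : ℕ → I) (hι : Function.Injective ι) (en : ℕ → G)
    (hen : ∀ n, S.supp (en n) = {ι n}) (ξ : I) (hξ : ∀ n, ι n ≤ ξ) :
    ∃ p ∈ T.L, ∃ d : G → G, (Set.range d).Countable ∧ ∃ p' : Ultrafilter G,
      p' = p.map (fun x => x + d x) ∧ p' + p' = p' ∧ ({0}ᶜ : Set G) ∈ p' ∧
      ∀ N ∈ p', ∃ N' ∈ p', N' ⊆ N ∧ ∀ g, g ≠ 0 → (∀ᶠ y in (p' : Filter G), g + y ∈ N') → g ∈ N := by
  obtain ⟨p, hp, hpp, hfin, hrz⟩ := T.main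
  have hD : {y | S.Far {ξ} y} ∈ p := T.far p hp {ξ}
  obtain ⟨W, hWD⟩ := exists_localData T hp hpp hfin hrz hD
  have hXι : ∀ x ∈ W.X, ∀ n, ι n ∉ S.supp x := by
    intro x hx n hn
    have h1 := (hWD hx).2.1 ξ (Finset.mem_singleton_self ξ) _ hn
    exact absurd (hξ n) (not_le.2 h1)
  have hX0 : ∀ x ∈ W.X, x ≠ 0 := fun x hx h => W.zero_notMem (h ▸ hx)
  classical
  let d : G → G := fun x => if x = 0 then 0 else delta W en x
  have hd : ∀ x, x ≠ 0 → d x = delta W en x := fun x hx => if_neg hx
  have hdc : (Set.range d).Countable := by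
    refine Set.Countable.mono (s₂ := Set.range (fun l : List ℕ => (l.map en).sum)) ?_
      (Set.countable_range _)
    rintro _ ⟨x, rfl⟩
    by_cases hx : x = 0
    · refine ⟨[], ?_⟩
      simp only [d, if_pos hx]
      simp
    · obtain ⟨l, hl⟩ := delta_mem W en x hx
      refine ⟨l, ?_⟩
      rw [hd x hx, hl]
  let h : G → G := fun x => x + d x
  have hdadd : ∀ x ∈ W.X, ∀ᶠ y in (p : Filter G), d (x + y) = d x + d y := by
    intro x hx
    filter_upwards [delta_add W (en := en) hp x hx, W.openX x hx, W.hX] with y h1 h2 h3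
    rw [hd _ (hX0 _ h2), hd _ (hX0 _ h3), hd _ (hX0 _ hx), h1]
  have hdsupp : ∀ x, ∀ i ∈ S.supp (d x), ∃ m, i = ι m := by
    intro x i hi
    by_cases hx : x = 0
    · simp only [d, if_pos hx, S.supp_zero] at hi
      simp at hi
    · rw [hd x hx] at hi
      obtain ⟨m, _, hm⟩ := supp_delta W hen x hx i hi
      exact ⟨m, hm⟩
  refine ⟨p, hp, d, hdc, p.map h, rfl, ?_, ?_, ?_⟩
  · apply Ultrafilter.coe_injective
    apply Filter.ext'
    intro P
    have h1 : (∀ᶠ z in ((p.map h + p.map h : Ultrafilter G) : Filter G), P z) ↔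
        ∀ᶠ x in (p : Filter G), ∀ᶠ y in (p : Filter G), P (h x + h y) := Iff.rfl
    have h2 : (∀ᶠ z in ((p.map h : Ultrafilter G) : Filter G), P z) ↔
        ∀ᶠ x in (p : Filter G), P (h x) := Iff.rfl
    rw [h1, h2, ← idem_iff hpp (fun z => P (h z))]
    have h3 : ∀ᶠ x in (p : Filter G), ∀ᶠ y in (p : Filter G), h (x + y) = h x + h y := by
      filter_upwards [W.hX] with x hx
      filter_upwards [hdadd x hx] with y hy
      simp only [h]
      rw [hy]
      abel
    constructor
    · intro h4
      filter_upwards [h3, h4] with x a b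
      filter_upwards [a, b] with y a' b'
      rwa [a']
    · intro h4
      filter_upwards [h3, h4] with x a b
      filter_upwards [a, b] with y a' b'
      rwa [← a']
  · change ∀ᶠ x in (p : Filter G), h x ∈ ({0}ᶜ : Set G)
    filter_upwards [W.hX] with x hx
    intro h0
    have h0' : x + d x = 0 := h0
    have h1 : x = - d x := eq_neg_of_add_eq_zero_left h0'
    obtain ⟨i, hi⟩ := S.supp_nonempty (hX0 x hx)
    have h2 : i ∈ S.supp (d x) := by
      rw [h1, S.supp_neg] at hi
      exact hi
    obtain ⟨m, hm⟩ := hdsupp x i h2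
    rw [hm] at hi
    exact hXι x hx m hi
  · intro N hN
    have hA : W.X ∩ h ⁻¹' N ∈ p := inter_mem W.hX hN
    obtain ⟨B, hB, hBA, hreg⟩ := W.reg _ hA
    refine ⟨h '' B, ?_, ?_, ?_⟩
    · change h ⁻¹' (h '' B) ∈ p
      exact mem_of_superset hB (Set.subset_preimage_image h B)
    · rintro _ ⟨b, hb, rfl⟩
      exact (hBA hb).2
    · intro g hg hev
      have hev' : ∀ᶠ y in (p : Filter G), g + h y ∈ h '' B := hev
      obtain ⟨y0, hy0, hy0X⟩ := (hev'.and W.hX).exists
      obtain ⟨b0, hb0, hb0'⟩ := hy0
      have hb0X : b0 ∈ W.X := (hBA hb0).1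
      let g0 := b0 - y0
      let gJ := d b0 - d y0
      have hgg : g = g0 + gJ := by
        simp only [g0, gJ]
        have : b0 + d b0 = g + (y0 + d y0) := hb0'
        have h5 : g = b0 + d b0 - (y0 + d y0) := by rw [this]; abel
        rw [h5]
        abel
      have hJsupp : ∀ i ∈ S.supp gJ, ∃ m, i = ι m := by
        intro i hi
        have := S.supp_sub _ _ hi
        rw [Finset.mem_union] at this
        rcases this with h1 | h1
        · exact hdsupp _ i h1
        · exact hdsupp _ i h1
      have hkey : ∀ᶠ y in (p : Filter G), y ∈ W.X ∧ g0 + y ∈ B ∧ d (g0 + y) = gJ + d y := by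
        filter_upwards [hev', W.hX] with y hy hyX
        obtain ⟨b, hb, hb'⟩ := hy
        have hbX : b ∈ W.X := (hBA hb).1
        have h6 : b + d b = g + (y + d y) := hb'
        have h7 : (b - y) - g0 = gJ - (d b - d y) := by
          have h8 : b = g0 + gJ + (y + d y) - d b := by
            rw [← hgg, ← h6]
            abel
          have h8' : b - y - g0 = (g0 + gJ + (y + d y) - d b) - y - g0 := by rw [← h8]
          rw [h8']
          abel
        have h9 : (b - y) - g0 = 0 := by
          by_contra hne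
          obtain ⟨i, hi⟩ := S.supp_nonempty hne
          have hi1 : ∃ m, i = ι m := by
            rw [h7] at hi
            have := S.supp_sub _ _ hi
            rw [Finset.mem_union] at this
            rcases this with h1 | h1
            · exact hJsupp i h1
            · have := S.supp_sub _ _ h1
              rw [Finset.mem_union] at this
              rcases this with h1 | h1
              · exact hdsupp _ i h1
              · exact hdsupp _ i h1
          obtain ⟨m, rfl⟩ := hi1
          have := S.supp_sub _ _ hi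
          rw [Finset.mem_union] at this
          rcases this with h1 | h1
          · have := S.supp_sub _ _ h1
            rw [Finset.mem_union] at this
            rcases this with h1 | h1
            · exact hXι b hbX m h1
            · exact hXι y hyX m h1
          · have := S.supp_sub _ _ h1
            rw [Finset.mem_union] at this
            rcases this with h1 | h1
            · exact hXι b0 hb0X m h1
            · exact hXι y0 hy0X m h1
        have h10 : b = g0 + y := by
          have : b - y = g0 := sub_eq_zero.1 h9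
          rw [← this]
          abel
        have h11 : d b = gJ + d y := by
          rw [h9] at h7
          have : gJ = d b - d y := (sub_eq_zero.1 h7.symm)
          rw [this]
          abel
        refine ⟨hyX, h10 ▸ hb, ?_⟩
        rw [← h10, h11]
      by_cases hg0 : g0 = 0
      · exfalso
        obtain ⟨y, hy1, hy2, hy3⟩ := hkey.exists
        rw [hg0, zero_add] at hy3
        have : gJ = 0 := by
          have h12 : gJ + d y = 0 + d y := by rw [zero_add]; exact hy3.symm
          exact add_right_cancel h12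
        apply hg
        rw [hgg, hg0, this, add_zero]
      · by_cases hg0X : g0 ∈ W.X
        · have h12 : g0 ∈ W.X ∩ h ⁻¹' N := hreg g0 hg0X (hkey.mono fun y hy => hy.2.1)
          obtain ⟨y, hy1, hy2⟩ := ((hdadd g0 hg0X).and hkey).exists
          have h13 : gJ = d g0 := by
            have : gJ + d y = d g0 + d y := by rw [← hy2.2.2, hy1]
            exact add_right_cancel this
          have h14 : g = h g0 := by
            rw [hgg, h13]
          rw [h14]
          exact h12.2
        · exfalso
          have e1 := delta_missing W hen hι hp g0 hg0 hg0X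
          have e2 : ∀ᶠ y in (p : Filter G), ι (S.nu y) ∉ S.supp gJ := by
            -- the finite set of indices occurring in gJ
            have hfinJ : {m | ι m ∈ S.supp gJ}.Finite :=
              Set.Finite.preimage hι.injOn (Finset.finite_toSet (S.supp gJ))
            obtain ⟨M, hM⟩ := hfinJ.bddAbove
            filter_upwards [T.nu_ge hp (M + 1)] with y hy hmem
            have := hM hmem
            omega
          obtain ⟨y, ⟨hy1, hy2⟩, hy3⟩ := ((e1.and e2).and hkey).exists
          obtain ⟨hyX, hyB, hyd⟩ := hy3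
          have hzX : g0 + y ∈ W.X := (hBA hyB).1
          have hy1' := hy1 hzX
          rw [hd _ (hX0 _ hzX), hd _ (hX0 _ hyX)] at hyd
          have h15 : en (S.nu y) = delta W en (g0 + y) - gJ - (delta W en y - en (S.nu y)) := by
            rw [hyd]
            abel
          have h16 : ι (S.nu y) ∈ S.supp (en (S.nu y)) := by
            rw [hen]
            exact Finset.mem_singleton_self _
          rw [h15] at h16
          have := S.supp_sub _ _ h16
          rw [Finset.mem_union] at this
          rcases this with h1 | h1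
          · have := S.supp_sub _ _ h1
            rw [Finset.mem_union] at this
            rcases this with h1 | h1
            · exact hy1' h1
            · exact hy2 h1
          · obtain ⟨m, hm1, hm2⟩ := supp_delta_sub W hen y (hX0 _ hyX) _ h1
            have := hι hm2
            omega

end Pool.Agent.LibMaxTop
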