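import Mathlib
import Pool.Agent.LibMaxTop.Local

set_option autoImplicit false

namespace Pool.Agent.LibMaxTop

open Filter Set Topology Cardinal

universe u

attribute [local instance] Ultrafilter.add Ultrafilter.addSemigroup

section large

variable {G : Type u} [AddCommGroup G]

/-- fewer than `#G` translates cover the group -/
def Large (A : Set G) : Prop :=
  ∃ F : Set G, #F < #G ∧ ∀ g : G, ∃ f ∈ F, ∃ a ∈ A, f + a = g

theorem Large.mono {A B : Set G} (h : Large A) (hAB : A ⊆ B) : Large B := by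
  obtain ⟨F, hF, h⟩ := h
  refine ⟨F, hF, fun g => ?_⟩
  obtain ⟨f, hf, a, ha, e⟩ := h g
  exact ⟨f, hf, a, hAB ha, e⟩

theorem Large.nonempty {A : Set G} (h : Large A) : A.Nonempty := by
  obtain ⟨F, hF, h⟩ := h
  obtain ⟨f, hf, a, ha, e⟩ := h 0
  exact ⟨a, ha⟩

theorem not_large_empty : ¬ Large (∅ : Set G) := by
  intro h
  simpa using h.nonempty

theorem mk_add_lt (hinf : ℵ₀ ≤ #G) {A B : Set G} (hA : #A < #G) (hB : #B < #G) :
    #(Set.image2 (fun a b => a + b) A B : Set G) < #G := by
  have h1 : #(Set.image2 (fun a b => a + b) A B : Set G) ≤ #A * #B := by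
    rw [← Set.image_prod]
    refine Cardinal.mk_image_le.trans ?_
    rw [Cardinal.mk_setProd]
  exact h1.trans_lt (Cardinal.mul_lt_of_lt hinf hA hB)

theorem Large.of_cover (hinf : ℵ₀ ≤ #G) {A : Set G} {F : Set G} (hF : #F < #G)
    (h : Large {g | ∃ f ∈ F, ∃ a ∈ A, f + a = g}) : Large A := by
  obtain ⟨F', hF', h⟩ := h
  refine ⟨Set.image2 (fun a b => a + b) F' F, mk_add_lt hinf hF' hF, fun g => ?_⟩
  obtain ⟨f', hf', b, ⟨f, hf, a, ha, rfl⟩, rfl⟩ := h g
  exact ⟨f' + f, ⟨f', hf', f, hf, rfl⟩, a, ha, by abel⟩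

theorem Large.translate {A : Set G} (x : G) (h : Large {y | x + y ∈ A}) : Large A := by
  obtain ⟨F, hF, h⟩ := h
  refine ⟨(fun f => f - x) '' F, Cardinal.mk_image_le.trans_lt hF, fun g => ?_⟩
  obtain ⟨f, hf, a, ha, rfl⟩ := h g
  exact ⟨f - x, ⟨f, hf, rfl⟩, x + a, ha, by abel⟩

/-- small sets form an ideal -/
theorem Large.union (hinf : ℵ₀ ≤ #G) {J : Type u} (hJ : #J < #G) (K : J → Set G)
    (hK : ∀ j, #(K j) < #G) (hcov : ∀ g, ∃ j, g ∈ K j) {A B : Set G}
    (h : Large (A ∪ B)) : Large A ∨ Large B := by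
  by_contra hcon
  push Not at hcon
  obtain ⟨hA, hB⟩ := hcon
  obtain ⟨F, hF, h⟩ := h
  -- translates of F + A are not large
  have h1 : ¬ Large {g | ∃ f ∈ F, ∃ a ∈ A, f + a = g} := fun h' => hA (h'.of_cover hinf hF)
  have h2 : ∀ j, ∃ x : G, ∀ k ∈ K j, x - k ∉ {g | ∃ f ∈ F, ∃ a ∈ A, f + a = g} := by
    intro j
    by_contra hcon
    push Not at hcon
    apply h1
    refine ⟨K j, hK j, fun g => ?_⟩
    obtain ⟨k, hk, hk'⟩ := hcon g
    exact ⟨k, hk, g - k, hk', by abel⟩
  choose x hx using h2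
  apply hB
  refine ⟨Set.image2 (fun a b => a + b) (Set.range fun j => - x j) F,
    mk_add_lt hinf (Cardinal.mk_range_le.trans_lt hJ) hF, fun g => ?_⟩
  obtain ⟨j, hj⟩ := hcov (-g)
  have h3 := hx j (-g) hj
  obtain ⟨f, hf, a, ha, e⟩ := h (x j - -g)
  rcases ha with ha | ha
  · exact absurd ⟨f, hf, a, ha, e⟩ h3
  · refine ⟨- x j + f, ⟨- x j, ⟨j, rfl⟩, f, hf, rfl⟩, a, ha, ?_⟩
    rw [add_assoc, e]
    abel

end large

section frame

variable {G : Type u} {I : Type u} [AddCommGroup G] [LinearOrder I]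

/-- combinatorial data on the index set -/
structure Frame (S : SuppData G I) where
  inf : ℵ₀ ≤ #G
  C : Set I
  hC : #C < #G
  cofinal : ∀ i : I, ∃ c ∈ C, i < c
  beta : I → I
  beta_fib : ∀ z i : I, ∃ j, i < j ∧ beta j = z
  nu_unb : ∀ (i : I) (m : ℕ), ∃ z, i < z ∧ m < S.nuI z
  e : I → G
  supp_e : ∀ i, S.supp (e i) = {i}
  quot : ∀ z : I, ∃ F : Set G, #F < #G ∧ ∀ w : G, ∃ f ∈ F, ∀ i ∈ S.supp (w - f), z < i
  ne : Nonempty I
  J : Type u
  hJ : #J < #G
  K : J → Set G
  hK : ∀ j, #(K j) < #G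
  hcov : ∀ g, ∃ j, g ∈ K j

variable {S : SuppData G I} (R : Frame S)

/-- blocks -/
def Frame.Blk (F : Finset I) (y : G) : Prop :=
  ∃ h : (S.supp y).Nonempty, (∀ i ∈ F, i < R.beta ((S.supp y).max' h)) ∧
    (∀ j ∈ S.supp y, R.beta ((S.supp y).max' h) ≤ j) ∧ ∀ i ∈ F, S.nuI i < S.nu y

variable {R}

theorem Frame.Blk.ne_zero {F : Finset I} {y : G} (h : R.Blk F y) : y ≠ 0 := by
  rintro rfl
  obtain ⟨h1, _⟩ := h
  rw [S.supp_zero] at h1
  simp at h1

theorem Frame.Blk.far {F : Finset I} {y : G} (h : R.Blk F y) : S.Far F y := by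
  refine ⟨h.ne_zero, ?_, ?_⟩
  · obtain ⟨h1, h2, h3, h4⟩ := h
    intro i hi j hj
    exact (h2 i hi).trans_le (h3 j hj)
  · obtain ⟨h1, h2, h3, h4⟩ := h
    exact h4

theorem Frame.Blk.mono {F F' : Finset I} (hF : F ⊆ F') {y : G} (h : R.Blk F' y) : R.Blk F y := by
  obtain ⟨h1, h2, h3, h4⟩ := h
  exact ⟨h1, fun i hi => h2 i (hF hi), h3, fun i hi => h4 i (hF hi)⟩

theorem max_add {x y : G} (h : S.Low x y) (hy : (S.supp y).Nonempty)
    (hxy : (S.supp (x + y)).Nonempty) : (S.supp (x + y)).max' hxy = (S.supp y).max' hy := by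
  apply le_antisymm
  · apply Finset.max'_le
    intro j hj
    rw [h.supp_add, Finset.mem_union] at hj
    rcases hj with hj | hj
    · exact (h j hj _ (Finset.max'_mem _ hy)).le
    · exact Finset.le_max' _ _ hj
  · apply Finset.le_max'
    rw [h.supp_add, Finset.mem_union]
    exact Or.inr (Finset.max'_mem _ _)

theorem Frame.Blk.unique {x x' y y' : G} (h : R.Blk (S.supp x) y) (h' : R.Blk (S.supp x') y')
    (e : x + y = x' + y') : x = x' := by
  have l := h.far.low
  have l' := h'.far.low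
  obtain ⟨h1, h2, h3, _⟩ := h
  obtain ⟨h1', h2', h3', _⟩ := h'
  have hne : (S.supp (x + y)).Nonempty := by
    rw [l.supp_add]
    exact h1.inr
  have hne' : (S.supp (x' + y')).Nonempty := by rwa [← e]
  have m1 := max_add l h1 hne
  have m2 := max_add l' h1' hne'
  have m3 : (S.supp (x + y)).max' hne = (S.supp (x' + y')).max' hne' := by
    congr 1
    rw [e]
  have m4 : (S.supp y).max' h1 = (S.supp y').max' h1' := by rw [← m1, ← m2, m3]
  have e2 : x - x' = y' - y := by
    have : x = x' + y' - y := by rw [← e]; abel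
    rw [this]
    abel
  by_contra hne2
  obtain ⟨i, hi⟩ := S.supp_nonempty (sub_ne_zero.2 hne2)
  have hi' := hi
  rw [e2] at hi'
  have a := S.supp_sub _ _ hi
  have b := S.supp_sub _ _ hi'
  rw [Finset.mem_union] at a b
  have a' : i < R.beta ((S.supp y).max' h1) := by
    rcases a with a | a
    · exact h2 i a
    · rw [m4]; exact h2' i a
  have b' : R.beta ((S.supp y).max' h1) ≤ i := by
    rcases b with b | b
    · rw [m4]; exact h3' i b
    · exact h3 i b
  exact absurd a' (not_lt.2 b')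

variable (R)

theorem Frame.large_blk (F : Finset I) : Large {y | R.Blk F y} := by
  obtain ⟨i0⟩ := R.ne
  -- choose the cut
  obtain ⟨z, hz1, hz2⟩ : ∃ z, (∀ i ∈ F, i < z) ∧ ∀ i ∈ F, S.nuI i < S.nuI z := by
    by_cases hF : F.Nonempty
    · obtain ⟨z, h1, h2⟩ := R.nu_unb (F.max' hF) (F.sup S.nuI)
      refine ⟨z, fun i hi => (Finset.le_max' _ _ hi).trans_lt h1, fun i hi => ?_⟩
      exact (Finset.le_sup (f := S.nuI) hi).trans_lt h2
    · rw [Finset.not_nonempty_iff_eq_empty] at hF
      subst hF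
      exact ⟨i0, by simp, by simp⟩
  obtain ⟨F0, hF0, hq⟩ := R.quot z
  have hj : ∀ c : I, ∃ j, max c z < j ∧ R.beta j = z := fun c => R.beta_fib z (max c z)
  choose jc hjc1 hjc2 using hj
  refine ⟨Set.image2 (fun a b => a + b) F0 ((fun c => - R.e z - R.e (jc c)) '' R.C),
    mk_add_lt R.inf hF0 (Cardinal.mk_image_le.trans_lt R.hC), fun w => ?_⟩
  obtain ⟨f, hf, hfa⟩ := hq w
  -- bound the support of w - f
  obtain ⟨c, hc, hca⟩ : ∃ c ∈ R.C, ∀ i ∈ S.supp (w - f), i < c := by
    by_cases hne : (S.supp (w - f)).Nonempty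
    · obtain ⟨c, hc, hc'⟩ := R.cofinal ((S.supp (w - f)).max' hne)
      exact ⟨c, hc, fun i hi => (Finset.le_max' _ _ hi).trans_lt hc'⟩
    · rw [Finset.not_nonempty_iff_eq_empty] at hne
      obtain ⟨c, hc, hc'⟩ := R.cofinal i0
      refine ⟨c, hc, ?_⟩
      rw [hne]
      simp
  have hj1 : c < jc c := (le_max_left _ _).trans_lt (hjc1 c)
  have hj2 : z < jc c := (le_max_right _ _).trans_lt (hjc1 c)
  let a := w - f
  have l1 : S.Low (R.e z) a := by
    intro i hi j hj
    rw [R.supp_e, Finset.mem_singleton] at hi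
    rw [hi]
    exact hfa j hj
  have l2 : S.Low (R.e z + a) (R.e (jc c)) := by
    intro i hi j hj
    rw [R.supp_e, Finset.mem_singleton] at hj
    rw [hj]
    rw [l1.supp_add, Finset.mem_union, R.supp_e, Finset.mem_singleton] at hi
    rcases hi with hi | hi
    · rw [hi]; exact hj2
    · exact (hca i hi).trans hj1
  have l3 : S.Low (R.e z) (a + R.e (jc c)) := by
    intro i hi j hj
    rw [R.supp_e, Finset.mem_singleton] at hi
    rw [hi]
    have := S.supp_add _ _ hj
    rw [Finset.mem_union, R.supp_e, Finset.mem_singleton] at this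
    rcases this with h | h
    · exact hfa j h
    · rw [h]; exact hj2
  have hez : R.e z ≠ 0 := by
    intro h
    have := R.supp_e z
    rw [h, S.supp_zero] at this
    simp at this
  let y := R.e z + a + R.e (jc c)
  have hsupp : S.supp y = {z} ∪ S.supp a ∪ {jc c} := by
    simp only [y]
    rw [l2.supp_add, l1.supp_add, R.supp_e, R.supp_e]
  have hne : (S.supp y).Nonempty := by
    rw [hsupp]
    exact ⟨z, by simp⟩
  have hmax : (S.supp y).max' hne = jc c := by
    have h1 : (S.supp (R.e (jc c))).Nonempty := by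
      rw [R.supp_e]
      exact Finset.singleton_nonempty _
    have h2 := max_add l2 h1 hne
    rw [h2]
    simp only [R.supp_e, Finset.max'_singleton]
  have hnu : S.nu y = S.nuI z := by
    have h1 : y = R.e z + (a + R.e (jc c)) := by simp only [y]; rw [add_assoc]
    rw [h1, l3.nu_add hez]
    have h2 : (S.supp (R.e z)).Nonempty := S.supp_nonempty hez
    rw [SuppData.nu_eq h2]
    simp only [R.supp_e, Finset.min'_singleton]
  refine ⟨f + (- R.e z - R.e (jc c)), ⟨f, hf, _, ⟨c, hc, rfl⟩, rfl⟩, y, ?_, ?_⟩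
  · refine ⟨hne, ?_, ?_, ?_⟩
    · intro i hi
      rw [hmax, hjc2]
      exact hz1 i hi
    · intro j hj
      rw [hmax, hjc2]
      rw [hsupp, Finset.mem_union, Finset.mem_union, Finset.mem_singleton, Finset.mem_singleton] at hj
      rcases hj with (hj | hj) | hj
      · exact hj.ge
      · exact (hfa j hj).le
      · rw [hj]; exact hj2.le
    · intro i hi
      rw [hnu]
      exact hz2 i hi
  · simp only [y, a]
    abel

theorem Frame.exists_q : ∃ q : Ultrafilter G, (∀ F, {y | R.Blk F y} ∈ q) ∧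
    ∀ A ∈ q, Large A := by
  let F1 : Filter G :=
    { sets := {A | ∃ F : Finset I, ¬ Large ({y | R.Blk F y} \ A)}
      univ_sets := ⟨∅, by
        rw [Set.diff_univ]
        exact not_large_empty⟩
      sets_of_superset := by
        rintro A B ⟨F, hF⟩ hAB
        exact ⟨F, fun h => hF (h.mono (Set.diff_subset_diff_right hAB))⟩
      inter_sets := by
        classical
        rintro A B ⟨F, hF⟩ ⟨F', hF'⟩
        refine ⟨F ∪ F', fun h => ?_⟩
        have h1 : {y | R.Blk (F ∪ F') y} \ (A ∩ B) ⊆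
            ({y | R.Blk F y} \ A) ∪ ({y | R.Blk F' y} \ B) := by
          rintro y ⟨hy1, hy2⟩
          by_cases hyA : y ∈ A
          · right
            exact ⟨hy1.mono Finset.subset_union_right, fun hyB => hy2 ⟨hyA, hyB⟩⟩
          · left
            exact ⟨hy1.mono Finset.subset_union_left, hyA⟩
        rcases (h.mono h1).union R.inf R.hJ R.K R.hK R.hcov with h2 | h2
        · exact hF h2
        · exact hF' h2 }
  have hne : F1.NeBot := by
    constructor
    intro hbot
    have : (∅ : Set G) ∈ F1 := by rw [hbot]; exact mem_bot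
    obtain ⟨F, hF⟩ := this
    apply hF
    rw [Set.diff_empty]
    exact R.large_blk F
  refine ⟨Ultrafilter.of F1, ?_, ?_⟩
  · intro F
    apply Ultrafilter.of_le F1
    refine ⟨F, ?_⟩
    rw [Set.diff_self]
    exact not_large_empty
  · intro A hA
    by_contra hcon
    have h1 : Aᶜ ∈ F1 := by
      refine ⟨∅, fun h => hcon (h.mono ?_)⟩
      rintro y ⟨_, hy⟩
      rwa [Set.mem_compl_iff, not_not] at hy
    have h2 : Aᶜ ∈ Ultrafilter.of F1 := Ultrafilter.of_le F1 h1
    have h3 : A ∩ Aᶜ ∈ Ultrafilter.of F1 := inter_mem hA h2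
    rw [Set.inter_compl_self] at h3
    exact Ultrafilter.empty_notMem h3

include R in
theorem Frame.exists_sys : ∃ T : Sys S, ∀ r ∈ T.L, ∀ A ∈ r, Large A := by
  obtain ⟨q, hq1, hq2⟩ := R.exists_q
  let L : Set (Ultrafilter G) :=
    {r | ({0}ᶜ : Set G) ∈ r ∧ ∀ A : G → Set G, (∀ x, A x ∈ q) → ReachS A ∈ r}
  classical
  have hfar : ∀ r ∈ L, ∀ F : Finset I, {y | S.Far F y} ∈ r := by
    rintro r ⟨hr0, hr⟩ F
    have h1 := hr (fun x => {b | R.Blk (F ∪ S.supp x) b}) (fun x => hq1 _)
    filter_upwards [hr0, h1] with z hz0 hz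
    have hclaim : ∀ b z, Reach (fun x => {b | R.Blk (F ∪ S.supp x) b}) b z → z = 0 ∨ S.Far F z := by
      intro b z hz
      induction hz with
      | zero => exact Or.inl rfl
      | step hx hy ih =>
        rename_i b x y
        right
        have hy' : R.Blk (F ∪ S.supp x) y := hy
        have f1 : S.Far F y := (hy'.mono Finset.subset_union_left).far
        have f2 : S.Far (S.supp x) y := (hy'.mono Finset.subset_union_right).far
        rcases ih with ih | ih
        · rw [ih, zero_add]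
          exact f1
        · refine ⟨f2.low.add_ne_zero ih.1, ?_, ?_⟩
          · intro i hi j hj
            rw [f2.low.supp_add, Finset.mem_union] at hj
            rcases hj with hj | hj
            · exact ih.2.1 i hi j hj
            · exact f1.2.1 i hi j hj
          · intro i hi
            rw [f2.low.nu_add ih.1]
            exact ih.2.2 i hi
    obtain ⟨b, hb⟩ := hz
    rcases hclaim b z hb with h | h
    · exact absurd h hz0
    · exact h
  have hadd : ∀ r ∈ L, ∀ s ∈ L, r + s ∈ L := by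
    rintro r hr s hs
    refine ⟨?_, fun A hA => reachS_add_mem hr.2 hs.2 hA⟩
    rw [mem_uadd]
    filter_upwards [hr.1] with x hx
    filter_upwards [hfar s hs (S.supp x)] with y hy
    exact hy.low.add_ne_zero hx
  have habs : ∀ r s : Ultrafilter G, s ∈ L → r + s = s → ({0}ᶜ : Set G) ∈ r → r ∈ L := by
    intro r s hs hrs hr0
    refine ⟨hr0, fun A hA => ?_⟩
    let A' : G → Set G := fun x => A x ∩ {b | R.Blk (S.supp x) b}
    have hA' : ∀ x, A' x ∈ q := fun x => inter_mem (hA x) (hq1 _)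
    have hsub : ReachS A' ⊆ ReachS A := ReachS.mono fun x => Set.inter_subset_left
    refine mem_of_superset ?_ hsub
    -- removing a block
    have hR2 : ∀ x y : G, x + y ∈ ReachS A' → R.Blk (S.supp x) y → x ∈ ReachS A' := by
      rintro x y ⟨b, hb⟩ hy
      generalize hz : x + y = z at hb
      cases hb with
      | zero =>
        exfalso
        by_cases hx : x = 0
        · rw [hx, zero_add] at hz
          exact hy.ne_zero hz
        · exact hy.far.low.add_ne_zero hx hz
      | step hx' hy' =>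
        rename_i b x' y'
        have : x = x' := hy.unique hy'.2 hz
        rw [this]
        exact ⟨_, hx'⟩
    have hR3 : ∀ z y : G, y ∈ ReachS (fun w => {b | R.Blk (S.supp (z + w)) b}) →
        z + y ∈ ReachS A' → z ∈ ReachS A' := by
      rintro z y ⟨b, hb⟩
      induction hb with
      | zero =>
        intro h
        rwa [add_zero] at h
      | step hx hy ih =>
        rename_i b w y
        intro h
        apply ih
        rw [← add_assoc] at h
        exact hR2 _ _ h hy
    have h1 : ReachS A' ∈ r + s := by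
      rw [hrs]
      exact hs.2 A' hA'
    rw [mem_uadd] at h1
    filter_upwards [h1] with z hz
    obtain ⟨y, hy1, hy2⟩ := (hz.and (hs.2 (fun w => {b | R.Blk (S.supp (z + w)) b})
      (fun w => hq1 _))).exists
    exact hR3 z y hy2 hy1
  have hcl : IsClosed L := by
    have : L = {r : Ultrafilter G | ({0}ᶜ : Set G) ∈ r} ∩
        ⋂ (A : G → Set G) (_ : ∀ x, A x ∈ q), {r : Ultrafilter G | ReachS A ∈ r} := by
      ext r
      simp only [L, Set.mem_ofPred_eq, Set.mem_inter_iff, Set.mem_iInter]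
    rw [this]
    refine (isClosed_mem _).inter ?_
    exact isClosed_iInter fun A => isClosed_iInter fun _ => isClosed_mem _
  have hqL : q ∈ L := by
    refine ⟨mem_of_superset (hq1 ∅) fun y hy => hy.ne_zero, fun A hA => reachS_sub_of hA⟩
  refine ⟨⟨L, hcl, ⟨q, hqL⟩, hadd, habs, hfar⟩, ?_⟩
  intro r hr A hA
  by_contra hcon
  have hAx : ∀ x, {y | x + y ∈ Aᶜ} ∈ q := by
    intro x
    by_contra h
    have h1 : {y | x + y ∈ Aᶜ}ᶜ ∈ q := Ultrafilter.compl_mem_iff_notMem.2 h
    have h2 := hq2 _ h1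
    apply hcon
    apply Large.translate x
    refine h2.mono fun y hy => ?_
    by_contra hy'
    exact hy hy'
  have h1 := hr.2 _ hAx
  have h2 : ∀ᶠ z in (r : Filter G), z ∉ A := by
    filter_upwards [h1, hr.1] with z hz hz0
    obtain ⟨b, hb⟩ := hz
    cases hb with
    | zero => exact absurd rfl hz0
    | step hx hy => exact hy
  have h3 : ∀ᶠ z in (r : Filter G), z ∈ A := hA
  obtain ⟨z, hz1, hz2⟩ := (h2.and h3).exists
  exact hz1 hz2

end frame

end Pool.Agent.LibMaxTop
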