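import Mathlib
import Pool.Agent.LibMaxTop.Large
import Pool.Agent.LibMaxTop.Embed

set_option autoImplicit false

namespace Pool.Agent.LibMaxTop

open Cardinal Set

universe u

/-- index set -/
abbrev Idx (κ : Cardinal.{u}) : Type u := κ.ord.ToType

theorem mk_idx (κ : Cardinal.{u}) : #(Idx κ) = κ := mk_ord_toType κ

theorem mk_Iio_idx {κ : Cardinal.{u}} (i : Idx κ) : #(Iio i) < κ := by
  simpa using mk_Iio_lt i (by simp)

theorem mk_Iic_idx {κ : Cardinal.{u}} (hκ : ℵ₀ ≤ κ) (i : Idx κ) : #(Iic i) < κ := by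
  have : NoMaxOrder (Idx κ) := Cardinal.noMaxOrder hκ
  obtain ⟨j, hj⟩ := exists_gt i
  exact (Cardinal.mk_le_mk_of_subset (fun k hk => lt_of_le_of_lt hk hj)).trans_lt (mk_Iio_idx j)

theorem exists_fib {κ : Cardinal.{u}} (hκ : ℵ₀ ≤ κ) (A : Type u) [Nonempty A] (hA : #A ≤ κ) :
    ∃ f : Idx κ → A, ∀ (a : A) (i : Idx κ), ∃ j, i < j ∧ f j = a := by
  have h1 : #(Idx κ) = #(Idx κ × A) := by
    rw [Cardinal.mk_prod, Cardinal.lift_id, Cardinal.lift_id, mk_idx]
    exact (Cardinal.mul_eq_left hκ hA (Cardinal.mk_ne_zero A)).symm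
  obtain ⟨φ⟩ := Cardinal.eq.1 h1
  refine ⟨fun i => (φ i).2, fun a i => ?_⟩
  by_contra hcon
  push Not at hcon
  have h2 : ∀ j : Idx κ, φ.symm (j, a) ∈ Iic i := by
    intro j
    by_contra h
    rw [mem_Iic, not_le] at h
    apply hcon _ h
    simp
  have h3 : #(Idx κ) ≤ #(Iic i) :=
    Cardinal.mk_le_of_injective (f := fun j => (⟨φ.symm (j, a), h2 j⟩ : Iic i)) (by
      intro j j' h
      simpa using h)
  rw [mk_idx] at h3
  exact absurd (mk_Iic_idx hκ i) (not_lt.2 h3)

theorem exists_cofinal {κ : Cardinal.{u}} (hκ : κ.IsSingular) :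
    ∃ C : Set (Idx κ), #C < κ ∧ ∀ i, ∃ c ∈ C, i < c := by
  obtain ⟨s, hs, hs'⟩ := Order.exists_cof_eq (Idx κ)
  refine ⟨s, ?_, fun i => ?_⟩
  · rw [hs', Ordinal.cof_toType]
    exact hκ.cof_ord_lt
  · have : NoMaxOrder (Idx κ) := Cardinal.noMaxOrder hκ.aleph0_le
    obtain ⟨j, hj⟩ := exists_gt i
    obtain ⟨c, hc, hjc⟩ := hs j
    exact ⟨c, hc, hj.trans_le hjc⟩

theorem exists_inf_below {κ : Cardinal.{u}} (hκ : ℵ₀ < κ) : ∃ i : Idx κ, (Iio i).Infinite := by
  by_contra hcon
  push Not at hcon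
  have hfin : ∀ i : Idx κ, (Iio i).Finite := hcon
  have h1 : StrictMono (fun i : Idx κ => (Iio i).ncard) := by
    intro i j hij
    apply Set.ncard_lt_ncard _ (hfin j)
    refine ⟨fun k hk => lt_trans hk hij, fun h => ?_⟩
    exact lt_irrefl i (h hij)
  have h2 : Countable (Idx κ) := h1.injective.countable
  have h3 : #(Idx κ) ≤ ℵ₀ := Cardinal.mk_le_aleph0_iff.2 h2
  rw [mk_idx] at h3
  exact absurd hκ (not_lt.2 h3)

theorem exists_frame (G : Type u) [AddCommGroup G] (hG : (#G).IsSingular) :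
    ∃ (S : SuppData G (Idx #G)) (_ : Frame S) (ι : ℕ → Idx #G) (en : ℕ → G) (ξ : Idx #G),
      Function.Injective ι ∧ (∀ n, S.supp (en n) = {ι n}) ∧ ∀ n, ι n ≤ ξ := by
  classical
  have hunc : ℵ₀ < #G := by
    refine lt_of_le_of_ne hG.aleph0_le fun h => ?_
    rw [← h] at hG
    exact not_isSingular_aleph0 hG
  obtain ⟨s, h0, hs, hinj, hsing⟩ := exists_embedding G hunc
  obtain ⟨φ⟩ : Nonempty (s ≃ Idx #G) := Cardinal.eq.1 (by rw [hs, mk_idx])
  let h : G →+ (Idx #G →₀ CC) := (Finsupp.domCongr φ).toAddMonoidHom.comp h0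
  have hh : ∀ g, h g = Finsupp.equivMapDomain φ (h0 g) := fun g => rfl
  have hhinj : Function.Injective h := by
    intro x y hxy
    apply hinj
    exact (Finsupp.domCongr φ : _ ≃+ (Idx #G →₀ CC)).injective hxy
  obtain ⟨nuI, hnuI⟩ := exists_fib hG.aleph0_le (ULift.{u} ℕ) (by simpa using hG.aleph0_le)
  obtain ⟨beta, hbeta⟩ := by
    have : Nonempty (Idx #G) := by
      rw [← Cardinal.mk_ne_zero_iff, mk_idx]
      exact hG.pos.ne'
    exact exists_fib hG.aleph0_le (Idx #G) (mk_idx _).le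
  let S : SuppData G (Idx #G) :=
    { supp := fun g => (h g).support
      supp_eq_empty := fun x => by
        rw [Finsupp.support_eq_empty, ← map_zero h]
        exact hhinj.eq_iff
      supp_sub := fun x y => by
        rw [map_sub]
        exact Finsupp.support_sub
      nuI := fun i => (nuI i).down }
  have he : ∀ i : Idx #G, ∃ g : G, S.supp g = {i} := by
    intro i
    obtain ⟨c, hc, hc'⟩ := hsing (φ.symm i)
    refine ⟨φ.symm i, ?_⟩
    show (h _).support = {i}
    rw [hh, hc', Finsupp.equivMapDomain_single, Equiv.apply_symm_apply,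
      Finsupp.support_single _ hc]
  choose e he using he
  obtain ⟨C, hC, hC'⟩ := exists_cofinal hG
  obtain ⟨ψ⟩ : Nonempty (G ≃ Idx #G) := Cardinal.eq.1 (by rw [mk_idx])
  let R : Frame S :=
    { inf := hG.aleph0_le
      C := C
      hC := hC
      cofinal := hC'
      beta := beta
      beta_fib := fun z i => hbeta z i
      nu_unb := fun i m => by
        obtain ⟨z, hz, hz'⟩ := hnuI ⟨m + 1⟩ i
        refine ⟨z, hz, ?_⟩
        show m < (nuI z).down
        rw [hz']
        exact Nat.lt_succ_self m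
      e := e
      supp_e := he
      quot := fun z => by
        let ρ : G → (Iic z →₀ CC) := fun g => (h g).subtypeDomain (· ∈ Iic z)
        have hρ : ∀ v : Set.range ρ, ∃ g, ρ g = v := fun v => v.2
        choose pre hpre using hρ
        refine ⟨Set.range pre, ?_, fun w => ⟨pre ⟨ρ w, ⟨w, rfl⟩⟩, ⟨_, rfl⟩, ?_⟩⟩
        · refine Cardinal.mk_range_le.trans_lt ?_
          refine (Cardinal.mk_subtype_le _).trans_lt ?_
          rcases finite_or_infinite (Iic z) with hf | hf
          · refine lt_of_le_of_lt ?_ hunc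
            exact Cardinal.mk_le_aleph0_iff.2 inferInstance
          · rw [Cardinal.mk_finsupp_lift_of_infinite]
            refine max_lt ?_ ?_
            · rw [Cardinal.lift_uzero]
              exact mk_Iic_idx hG.aleph0_le z
            · refine lt_of_le_of_lt ?_ hunc
              rw [Cardinal.lift_le_aleph0]
              exact Cardinal.mk_le_aleph0_iff.2 inferInstance
        · intro i hi
          by_contra hcon
          rw [not_lt] at hcon
          have h1 := hpre ⟨ρ w, ⟨w, rfl⟩⟩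
          have h2 : h (pre ⟨ρ w, ⟨w, rfl⟩⟩) i = h w i := by
            have := DFunLike.congr_fun h1 ⟨i, hcon⟩
            simpa [ρ] using this
          have h3 : (h (w - pre ⟨ρ w, ⟨w, rfl⟩⟩)) i ≠ 0 := Finsupp.mem_support_iff.1 hi
          rw [map_sub, Finsupp.sub_apply, h2, sub_self] at h3
          exact h3 rfl
      ne := by
        rw [← Cardinal.mk_ne_zero_iff, mk_idx]
        exact hG.pos.ne'
      J := C
      hJ := hC
      K := fun c => {g | ψ g < c}
      hK := fun c => by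
        refine lt_of_le_of_lt ?_ (mk_Iio_idx (c : Idx #G))
        refine Cardinal.mk_le_of_injective (f := fun g => (⟨ψ g, g.2⟩ : Iio (c : Idx #G))) ?_
        intro g g' hgg
        have := congrArg Subtype.val hgg
        exact Subtype.ext (ψ.injective this)
      hcov := fun g => by
        obtain ⟨c, hc, hc'⟩ := hC' (ψ g)
        exact ⟨⟨c, hc⟩, hc'⟩ }
  obtain ⟨ξ, hξ⟩ := exists_inf_below hunc
  let ι := hξ.natEmbedding
  refine ⟨S, R, fun n => (ι n : Idx #G), fun n => e (ι n), ξ, ?_, fun n => he _, fun n => ?_⟩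
  · intro n m hnm
    exact ι.injective (Subtype.ext hnm)
  · exact le_of_lt (ι n).2

end Pool.Agent.LibMaxTop
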